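import Pool.Agent.V11189.KU.Wr

/-!
A class of groups closed under direct products, graph products and wreath products, and injectivity
of families of natural transformations for its members.
-/

namespace Pool.Agent.V11189.KU

open Monoid Pool.Agent.Y483 Pool.Agent.Y110.KW Pool.Agent.Y75.MQ CategoryTheory Pointwise
open Pool.Agent.V11187.MG

/-- For a system of retractions `e_S` of `N`, `S ⊆ V`, and `u, v ∈ V`: the group `N` is the amalgamated
product of the images of `e_{V - u}` and `e_{V - v}` along the image of `e_{V - {u, v}}`. -/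
def Splits {N V : Type} [Group N] (e : Set V → (N →* N)) (u v : V) : Prop :=
  (e {u}ᶜ).range ⊔ (e {v}ᶜ).range = ⊤ ∧
    ∀ (H : Type) [Group H] (f g : N →* H),
      (∀ n, f (e ({u}ᶜ ∩ {v}ᶜ) n) = g (e ({u}ᶜ ∩ {v}ᶜ) n)) →
      ∃ k : N →* H, (∀ n, k (e {u}ᶜ n) = f (e {u}ᶜ n)) ∧ ∀ n, k (e {v}ᶜ n) = g (e {v}ᶜ n)

theorem sep_of_splits {Γ N V : Type} [Group Γ] [Group N] [MulAction Γ V] (s : PW.Sys Γ N V)
    {u v : V} (h : Splits s.e u v) : s.Sep u v where
  le_left := by
    rintro _ ⟨n, rfl⟩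
    exact ⟨s.e {v}ᶜ n, s.inter _ _ n⟩
  le_right := by
    rintro _ ⟨n, rfl⟩
    refine ⟨s.e {u}ᶜ n, ?_⟩
    rw [s.inter, Set.inter_comm]
  gen := h.1
  univ := by
    intro H _ f g hfg
    obtain ⟨k, hk1, hk2⟩ := h.2 H (f.comp (s.e {u}ᶜ).rangeRestrict)
      (g.comp (s.e {v}ᶜ).rangeRestrict) (by
        intro n
        have h1 := hfg (s.e ({u}ᶜ ∩ {v}ᶜ) n) ⟨n, rfl⟩
        have e1 : (s.e {u}ᶜ).rangeRestrict (s.e ({u}ᶜ ∩ {v}ᶜ) n) =
            ⟨s.e ({u}ᶜ ∩ {v}ᶜ) n, s.e {v}ᶜ n, s.inter _ _ n⟩ := by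
          apply Subtype.ext
          change s.e {u}ᶜ (s.e ({u}ᶜ ∩ {v}ᶜ) n) = s.e ({u}ᶜ ∩ {v}ᶜ) n
          rw [s.inter, ← Set.inter_assoc, Set.inter_self]
        have e2 : (s.e {v}ᶜ).rangeRestrict (s.e ({u}ᶜ ∩ {v}ᶜ) n) =
            ⟨s.e ({u}ᶜ ∩ {v}ᶜ) n, s.e {u}ᶜ n, by rw [s.inter, Set.inter_comm]⟩ := by
          apply Subtype.ext
          change s.e {v}ᶜ (s.e ({u}ᶜ ∩ {v}ᶜ) n) = s.e ({u}ᶜ ∩ {v}ᶜ) n
          rw [s.inter, Set.inter_comm, Set.inter_assoc, Set.inter_self]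
        rw [MonoidHom.comp_apply, MonoidHom.comp_apply, e1, e2]
        exact h1)
    refine ⟨k, ?_, ?_⟩
    · rintro ⟨_, n, rfl⟩
      change k (s.e {u}ᶜ n) = _
      rw [hk1, MonoidHom.comp_apply]
      congr 1
      apply Subtype.ext
      change s.e {u}ᶜ (s.e {u}ᶜ n) = s.e {u}ᶜ n
      rw [s.inter, Set.inter_self]
    · rintro ⟨_, n, rfl⟩
      change k (s.e {v}ᶜ n) = _
      rw [hk2, MonoidHom.comp_apply]
      congr 1
      apply Subtype.ext
      change s.e {v}ᶜ (s.e {v}ᶜ n) = s.e {v}ᶜ n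
      rw [s.inter, Set.inter_self]
  retr := by
    refine ⟨(s.e ({u}ᶜ ∩ {v}ᶜ)).rangeRestrict, ?_⟩
    rintro ⟨_, n, rfl⟩
    apply Subtype.ext
    change s.e ({u}ᶜ ∩ {v}ᶜ) (s.e ({u}ᶜ ∩ {v}ᶜ) n) = s.e ({u}ᶜ ∩ {v}ᶜ) n
    rw [s.inter, Set.inter_self]

/-- The smallest class of groups which contains the groups `π / [R, R]`, where `π` is any group which
acts by automorphisms on a tree with finite vertex stabilizers and `R` is any normal subgroup of
`π`, and which is closed under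

* direct products,
* graph products (in particular free products and restricted direct products),
* semidirect products `N ⋊ Γ` with a system of supports whose parts `N_σ ⋊ Γ_σ` are in the class,
  for the finite sets `σ` without two elements `u ≠ v` such that `N` is the amalgamated product of
  `N_{V - u}` and `N_{V - v}` along `N_{V - {u, v}}`,
* overgroups of finite index,
* groups `G` with homomorphisms to groups `H i` of the class which jointly detect the rational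
  homology of `G` (in particular retracts, extensions with locally finite kernel). -/
inductive Cls : GrpCat.{0} → Prop
  | quotient {π V : Type} [Group π] [MulAction π V] (Tr : SimpleGraph V) (hT : Tr.IsTree)
      (hadj : ∀ (g : π) (u v : V), Tr.Adj u v → Tr.Adj (g • u) (g • v))
      (hfin : ∀ v : V, Finite (MulAction.stabilizer π v)) (R : Subgroup π) [R.Normal] :
      Cls (GrpCat.of (π ⧸ ⁅R, R⁆))
  | prod {G H : Type} [Group G] [Group H] (hG : Cls (GrpCat.of G)) (hH : Cls (GrpCat.of H)) :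
      Cls (GrpCat.of (G × H))
  | graph {V : Type} (Λ : SimpleGraph V) (P : V → Type) [∀ v, Group (P v)]
      (h : ∀ v, Cls (GrpCat.of (P v))) : Cls (GrpCat.of (GP P Λ))
  | semi {Γ N V : Type} [Group Γ] [Group N] [MulAction Γ V] (s : PW.Sys Γ N V)
      (h : ∀ σ : Finset V, (∀ u ∈ σ, ∀ v ∈ σ, u ≠ v → ¬ Splits s.e u v) →
        Cls (GrpCat.of (s.supG σ))) : Cls (GrpCat.of (N ⋊[s.φ] Γ))
  | index {G : Type} [Group G] (H : Subgroup G) [H.FiniteIndex] (h : Cls (GrpCat.of H)) :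
      Cls (GrpCat.of G)
  | detect {ι G : Type} [Group G] {H : ι → Type} [∀ i, Group (H i)] (p : ∀ i, G →* H i)
      (hp : ∀ (j : ℕ) (x : (hq j).obj (GrpCat.of G)),
        (∀ i, ((hq j).map (GrpCat.ofHom (p i))).hom x = 0) → x = 0)
      (h : ∀ i, Cls (GrpCat.of (H i))) : Cls (GrpCat.of G)

variable {B : Type} (d : B → ℕ) {F : GrpCat.{0} ⥤ ModuleCat.{0} ℚ} (α : ∀ b : B, hq (d b) ⟶ F)

theorem relP_class (hE : PW.HasPT F) (G : GrpCat.{0}) (hG : Cls G) : RelP d α G := by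
  induction hG with
  | quotient Tr hT hadj hfin R => exact relP_tree d α hadj hE hT (fun v => Set.toFinite _) R
  | prod _ _ ih1 ih2 => exact relP_prod d α ih1 ih2
  | graph Λ P _ ih => exact relP_graph d α hE P Λ ih
  | semi s _ ih =>
    exact relP_semi d α hE s (fun σ => ih σ.1 (fun u hu v hv huv hs =>
      σ.2 u hu v hv huv (sep_of_splits s hs)))
  | index H _ ih => exact relP_index d α hE H ih
  | detect p hp _ ih => exact relP_detect d α p hp ih

/-- **Main theorem.** -/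
theorem cls_main (hE : PW.HasPT F) :
    (∀ (K : Type) [Group K], (∀ n, kerFam α (GrpCat.of (Multiplicative (Fin n → ℤ) × K)) = ⊥) →
      ∀ G : GrpCat.{0}, Cls G → kerFam α (GrpCat.of (G × K)) = ⊥) ∧
    (((∀ n, kerFam α (zn n) = ⊥) ∨ (Function.Injective d ∧ ∀ b, (α b).app (zn (d b)) ≠ 0)) →
      ∀ G : GrpCat.{0}, Cls G → kerFam α G = ⊥) := by
  have h1 : ∀ (K : Type) [Group K],
      (∀ n, kerFam α (GrpCat.of (Multiplicative (Fin n → ℤ) × K)) = ⊥) →
      ∀ G : GrpCat.{0}, Cls G → kerFam α (GrpCat.of (G × K)) = ⊥ :=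
    fun K _ hK G hG => relP_class d α hE G hG K hK
  refine ⟨h1, fun h G hG => ?_⟩
  have hZ : ∀ n, LinearMap.ker (tb d α (Zn n)) = ⊥ := by
    rcases h with h | ⟨h1, h2⟩
    · exact h
    · exact ker_Zn_of_top_b d α h1 h2
  have h2 := h1 Unit (fun n => ker_retract_b d α (MonoidHom.fst (Zn n) Unit)
    (MonoidHom.inl (Zn n) Unit) (fun _ => rfl) (hZ n)) G hG
  exact ker_retract_b d α (MonoidHom.inl G Unit) (MonoidHom.fst G Unit) (fun _ => rfl) h2

end Pool.Agent.V11189.KU
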