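import Pool.Agent.V11189.KU.Inh
import Pool.Agent.Y483.Main

/-!
Detection of cycles of `G × K` by the slant products with cocycles of `K`.
-/

namespace Pool.Agent.V11189.KU

open Finsupp Pool.Agent.Y483

section Linear

/-- A complex of rational vector spaces is homotopy equivalent to its homology. -/
theorem exists_split {D : Type} [AddCommGroup D] [Module ℚ D] (d : D →ₗ[ℚ] D)
    (hd : ∀ m, d (d m) = 0) : ∃ (ι : Type) (s : D →ₗ[ℚ] D) (f : D →ₗ[ℚ] (ι →₀ ℚ))
      (e : (ι →₀ ℚ) →ₗ[ℚ] D), (∀ m, m = e (f m) + d (s m) + s (d m)) ∧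
        (∀ m, f (d m) = 0) ∧ ∀ v, d (e v) = 0 := by
  obtain ⟨σ, hσ⟩ := d.rangeRestrict.exists_rightInverse_of_surjective
    (LinearMap.range_eq_top.mpr d.surjective_rangeRestrict)
  obtain ⟨π, hπ⟩ := (LinearMap.range d).subtype.exists_leftInverse_of_injective
    (LinearMap.ker_eq_bot.mpr (Submodule.subtype_injective _))
  let s : D →ₗ[ℚ] D := σ ∘ₗ π
  have hs : ∀ m, d (s (d m)) = d m := by
    intro m
    have h1 : π (d m) = ⟨d m, m, rfl⟩ := DFunLike.congr_fun hπ ⟨d m, m, rfl⟩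
    change d (σ (π (d m))) = d m
    rw [h1]
    exact congrArg Subtype.val (DFunLike.congr_fun hσ ⟨d m, m, rfl⟩)
  let h : D →ₗ[ℚ] D := LinearMap.id - d ∘ₗ s - s ∘ₗ d
  have hh : ∀ m, h m = m - d (s m) - s (d m) := fun _ => rfl
  have hdh : ∀ m, d (h m) = 0 := by
    intro m
    rw [hh, map_sub, map_sub, hd, hs, sub_zero, sub_self]
  have hhd : ∀ m, h (d m) = 0 := by
    intro m
    rw [hh, hs, hd, map_zero, sub_zero, sub_self]
  let b := Module.Basis.ofVectorSpace ℚ (LinearMap.range h)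
  refine ⟨_, s, b.repr.toLinearMap ∘ₗ h.rangeRestrict,
    (LinearMap.range h).subtype ∘ₗ b.repr.symm.toLinearMap, ?_, ?_, ?_⟩
  · intro m
    have e : ((LinearMap.range h).subtype ∘ₗ b.repr.symm.toLinearMap)
        ((b.repr.toLinearMap ∘ₗ h.rangeRestrict) m) = h m := by
      change (b.repr.symm (b.repr (h.rangeRestrict m))).1 = h m
      rw [LinearEquiv.symm_apply_apply]
      rfl
    rw [e, hh]
    abel
  · intro m
    have e : h.rangeRestrict (d m) = 0 := Subtype.ext (hhd m)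
    rw [LinearMap.comp_apply, e, map_zero]
  · intro v
    obtain ⟨m, hm⟩ := (b.repr.symm v).2
    change d (b.repr.symm v).1 = 0
    rw [← hm, hdh]

end Linear

section Coef

variable {G : Type} [Group G]

theorem mp_id_apply {n : ℕ} {X M N : Type} [AddCommGroup M] [Module ℚ M] [AddCommGroup N]
    [Module ℚ N] (φ : M →ₗ[ℚ] N) (z : T n X M) (x : Fin n → X) : mp n id φ z x = φ (z x) := by
  classical
  have h : (Finsupp.lapply x) ∘ₗ (mp n id φ) = φ ∘ₗ (Finsupp.lapply (R := ℚ) x) := by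
    apply T_ext
    intro y m
    rw [LinearMap.comp_apply, LinearMap.comp_apply, mp_single, Function.id_comp,
      Finsupp.lapply_apply, Finsupp.lapply_apply, Finsupp.single_apply, Finsupp.single_apply]
    split_ifs
    · rfl
    · rw [map_zero]
  exact DFunLike.congr_fun h z

/-- A chain with coefficients in `ℚ^(ι)` is a boundary if its coordinates are. -/
theorem range_of_coord {ι : Type} (n : ℕ) (u : T n G (ι →₀ ℚ))
    (h : ∀ k, mp n id (Finsupp.lapply k) u ∈ LinearMap.range (dd (trivR G ℚ) n)) :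
    u ∈ LinearMap.range (dd (trivR G (ι →₀ ℚ)) n) := by
  classical
  let F : Finset ι := u.support.biUnion (fun x => (u x).support)
  have e : u = ∑ k ∈ F, mp n id (Finsupp.lsingle k) (mp n id (Finsupp.lapply k) u) := by
    ext x : 1
    rw [Finsupp.finsetSum_apply]
    have e1 : ∀ k ∈ F, (mp n id (Finsupp.lsingle k) (mp n id (Finsupp.lapply k) u)) x =
        single k ((u x) k) := by
      intro k _
      rw [mp_id_apply, mp_id_apply]
      rfl
    rw [Finset.sum_congr rfl e1]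
    have e2 : (u x).support ⊆ F := by
      by_cases hx : x ∈ u.support
      · exact Finset.subset_biUnion_of_mem (fun x => (u x).support) hx
      · rw [Finsupp.notMem_support_iff] at hx
        rw [hx, Finsupp.support_zero]
        exact Finset.empty_subset _
    conv_lhs => rw [← Finsupp.sum_single (u x)]
    rw [Finsupp.sum_of_support_subset _ e2]
    intro k _
    exact single_zero k
  rw [e]
  apply Submodule.sum_mem
  intro k _
  obtain ⟨v, hv⟩ := h k
  refine ⟨mp (n + 1) id (Finsupp.lsingle k) v, ?_⟩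
  rw [mp_coef_dd, hv]

end Coef

section Detect

variable {G K : Type} [Group G] [Group K]

theorem mp_coef_cY {n : ℕ} (φ : LC K →ₗ[ℚ] ℚ) (hφ : ∀ m, φ (dD m) = 0) (w : T n G (LC K)) :
    mp n id φ (cY n w) = 0 := by
  rw [cY, mp_mp]
  have e : φ ∘ₗ dD = 0 := LinearMap.ext hφ
  rw [e]
  have h : (mp n (id ∘ id) (0 : LC K →ₗ[ℚ] ℚ) : T n G (LC K) →ₗ[ℚ] T n G ℚ) = 0 := by
    apply T_ext
    intro x m
    rw [mp_single]
    simp
  rw [h]
  rfl

/-- The slant product. -/
theorem slant_dd (φ : LC K →ₗ[ℚ] ℚ) (hφ : ∀ m, φ (dD m) = 0) (n i : ℕ) (hi : i ≤ n)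
    (z : T (n + 1) (G × K) ℚ) : mp i id φ (aw n i (dd (trivR (G × K) ℚ) n z)) =
      dd (trivR G ℚ) i (mp (i + 1) id φ (aw (n + 1) (i + 1) z)) := by
  rw [aw_dd n i hi, map_add, map_smul, mp_coef_cY φ hφ, smul_zero, add_zero, mp_coef_dd]

theorem detect_aux (n : ℕ) {ι : Type} (s : LC K →ₗ[ℚ] LC K) (f : LC K →ₗ[ℚ] (ι →₀ ℚ))
    (e : (ι →₀ ℚ) →ₗ[ℚ] LC K) (h1 : ∀ m, m = e (f m) + dD (s m) + s (dD m))
    (h2 : ∀ m, f (dD m) = 0) (h3 : ∀ v, dD (e v) = 0)
    (z : T n (G × K) ℚ) (hz : Cyc (trivR (G × K) ℚ) n z)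
    (hS : ∀ φ : LC K →ₗ[ℚ] ℚ, (∀ m, φ (dD m) = 0) → ∀ j,
      mp (j + 1) id φ (aw n (j + 1) z) ∈ LinearMap.range (dd (trivR G ℚ) (j + 1))) :
    z - sh n 0 (mp 0 id (e ∘ₗ f) (aw n 0 z)) ∈ LinearMap.range (dd (trivR (G × K) ℚ) n) := by
  set R := LinearMap.range (dd (trivR (G × K) ℚ) n) with hR
  set w : ∀ i, T i G (LC K) := fun i => aw n i z with hw
  set t : ∀ i, T i G (LC K) := fun i => ((-1 : ℚ) ^ i) • mp i id s (w i) with ht
  have hsq : ∀ i : ℕ, ((-1 : ℚ) ^ i) * ((-1 : ℚ) ^ i) = 1 := by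
    intro i
    rw [← mul_pow]
    norm_num
  have hcY : ∀ i, cY i (w i) = -(((-1 : ℚ) ^ i) • dd (trivR G (LC K)) i (w (i + 1))) := by
    intro i
    have h := aw_cyc n z hz i
    have h4 : ((-1 : ℚ) ^ i) • (dd (trivR G (LC K)) i (w (i + 1)) +
        ((-1 : ℚ) ^ i) • cY i (w i)) = 0 := by
      change ((-1 : ℚ) ^ i) • (dd (trivR G (LC K)) i (aw n (i + 1) z) +
        ((-1 : ℚ) ^ i) • cY i (aw n i z)) = 0
      rw [h, smul_zero]
    rw [smul_add, smul_smul, hsq, one_smul] at h4
    exact eq_neg_of_add_eq_zero_right h4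
  have hdec : ∀ i, w i = mp i id (e ∘ₗ f) (w i) + (((-1 : ℚ) ^ i) • cY i (t i) +
      dd (trivR G (LC K)) i (t (i + 1))) := by
    intro i
    have e1 : w i = mp i id (e ∘ₗ f) (w i) + mp i id (dD ∘ₗ s) (w i) +
        mp i id (s ∘ₗ dD) (w i) := by
      ext x : 1
      rw [Finsupp.add_apply, Finsupp.add_apply, mp_id_apply, mp_id_apply, mp_id_apply]
      exact h1 _
    have e2 : mp i id (dD ∘ₗ s) (w i) = ((-1 : ℚ) ^ i) • cY i (t i) := by
      simp only [ht]
      rw [map_smul, smul_smul, hsq, one_smul, cY, mp_mp]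
      rfl
    have e3 : mp i id (s ∘ₗ dD) (w i) = dd (trivR G (LC K)) i (t (i + 1)) := by
      have e4 : mp i id (s ∘ₗ dD) (w i) = mp i id s (cY i (w i)) := by
        rw [cY, mp_mp]
        rfl
      simp only [ht]
      rw [e4, hcY, map_neg, map_smul, map_smul, mp_coef_dd, pow_succ, mul_neg_one, neg_smul]
    conv_lhs => rw [e1, e2, e3]
    rw [add_assoc]
  have htop : t (n + 1) = 0 := by
    simp only [ht, hw]
    rw [aw_big n (n + 1) (by omega), map_zero, smul_zero]
  -- the homotopy terms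
  have hhom : ∑ i ∈ Finset.range (n + 1), sh n i (((-1 : ℚ) ^ i) • cY i (t i) +
      dd (trivR G (LC K)) i (t (i + 1))) ∈ R := by
    refine ⟨∑ i ∈ Finset.range (n + 2), sh (n + 1) i (t i), ?_⟩
    rw [map_sum, Finset.sum_range_succ' (fun i => dd (trivR (G × K) ℚ) n (sh (n + 1) i (t i)))]
    simp only [dd_sh_zero, dd_sh_succ, map_add, map_smul]
    rw [Finset.sum_add_distrib, Finset.sum_add_distrib]
    have e5 : ∑ i ∈ Finset.range (n + 1), ((-1 : ℚ) ^ (i + 1)) • sh n (i + 1) (cY (i + 1) (t (i + 1))) +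
        sh n 0 (cY 0 (t 0)) = ∑ i ∈ Finset.range (n + 1), ((-1 : ℚ) ^ i) • sh n i (cY i (t i)) := by
      have e6 := Finset.sum_range_succ' (fun i => ((-1 : ℚ) ^ i) • sh n i (cY i (t i))) (n + 1)
      rw [pow_zero, one_smul] at e6
      rw [← e6, Finset.sum_range_succ, htop, map_zero, map_zero, smul_zero, add_zero]
    rw [add_assoc, e5, add_comm]
  -- the classes of positive degree
  have hpos : ∀ j, sh n (j + 1) (mp (j + 1) id (e ∘ₗ f) (w (j + 1))) ∈ R := by
    intro j
    have hu : mp (j + 1) id f (w (j + 1)) ∈ LinearMap.range (dd (trivR G (ι →₀ ℚ)) (j + 1)) := by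
      apply range_of_coord
      intro k
      rw [mp_mp, Function.comp_id]
      apply hS
      intro m
      rw [LinearMap.comp_apply, h2, map_zero]
    obtain ⟨v, hv⟩ := hu
    refine ⟨sh (n + 1) (j + 2) (mp (j + 2) id e v), ?_⟩
    have e7 : cY (j + 2) (mp (j + 2) id e v) = 0 := by
      ext x : 1
      rw [cY, mp_id_apply, mp_id_apply, h3]
      rfl
    rw [dd_sh_succ, e7, map_zero, smul_zero, add_zero, mp_coef_dd, hv, mp_mp]
    rfl
  have h5 := cyc_sh_aw n z hz
  have h6 : ∑ i ∈ Finset.range (n + 1), sh n i (aw n i z) =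
      ∑ i ∈ Finset.range (n + 1), sh n i (mp i id (e ∘ₗ f) (w i)) +
        ∑ i ∈ Finset.range (n + 1), sh n i (((-1 : ℚ) ^ i) • cY i (t i) +
          dd (trivR G (LC K)) i (t (i + 1))) := by
    rw [← Finset.sum_add_distrib]
    apply Finset.sum_congr rfl
    intro i _
    rw [← map_add, ← hdec i]
  have h7 : ∑ i ∈ Finset.range (n + 1), sh n i (mp i id (e ∘ₗ f) (w i)) -
      sh n 0 (mp 0 id (e ∘ₗ f) (aw n 0 z)) ∈ R := by
    rw [Finset.sum_range_succ' (fun i => sh n i (mp i id (e ∘ₗ f) (w i))), add_sub_cancel_right]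
    exact Submodule.sum_mem _ fun i _ => hpos i
  rw [h6] at h5
  have h8 := Submodule.add_mem _ (Submodule.add_mem _ h5 hhom) h7
  convert h8 using 1
  abel

end Detect

section Natural

theorem mp_pp' {H H' M : Type} [Group H] [Group H'] [AddCommGroup M] [Module ℚ M]
    (f : H →* H') (q : ℕ) (z : T (q + 1) H M) :
    mp q f LinearMap.id (pp (trivR H M) q z) =
      pp (trivR H' M) q (mp (q + 1) f LinearMap.id z) := by
  have h : (mp q f LinearMap.id) ∘ₗ (pp (trivR H M) q) =
      (pp (trivR H' M) q) ∘ₗ (mp (q + 1) f LinearMap.id) := by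
    apply T_ext
    intro x m
    rw [LinearMap.comp_apply, LinearMap.comp_apply, pp_single, mp_single, mp_single, pp_single]
    congr 1
    funext i
    simp
  exact DFunLike.congr_fun h z

theorem mp_sg' {H H' M : Type} [Group H] [Group H'] [AddCommGroup M] [Module ℚ M]
    (f : H →* H') (q : ℕ) (z : T q H M) :
    mp (q + 1) f LinearMap.id (sg q z) = sg q (mp q f LinearMap.id z) := by
  have h : (mp (q + 1) f LinearMap.id) ∘ₗ (sg q) =
      (sg q) ∘ₗ (mp (M := M) q f LinearMap.id) := by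
    apply T_ext
    intro x m
    rw [LinearMap.comp_apply, LinearMap.comp_apply, sg_single, mp_single, mp_single, sg_single]
    congr 1
    funext j
    induction j using Fin.induction with
    | zero => simp
    | succ i ih =>
      rw [Function.comp_apply] at *
      rw [Fin.partialProd_succ, Fin.partialProd_succ, map_mul, ih]
      rfl
  exact DFunLike.congr_fun h z

variable {G W K : Type} [Group G] [Group W] [Group K]

theorem aw_map (φ : G →* W) (n i : ℕ) (z : T n (G × K) ℚ) :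
    aw n i (mp n (φ.prodMap (MonoidHom.id K)) LinearMap.id z) =
      mp i φ LinearMap.id (aw n i z) := by
  have e1 : sg n (mp n (φ.prodMap (MonoidHom.id K)) LinearMap.id z) =
      mp (n + 1) (Prod.map φ id) LinearMap.id (sg n z) :=
    (mp_sg' (φ.prodMap (MonoidHom.id K)) n z).symm
  rw [aw, aw, LinearMap.comp_apply, LinearMap.comp_apply, LinearMap.comp_apply,
    LinearMap.comp_apply, e1, A_mp, mapL_id']
  generalize A n i (sg n z) = Z
  rw [pG, pG, LinearMap.comp_apply, LinearMap.comp_apply, mp_mp]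
  have e2 : pp (trivR W (LC K)) i (mp (i + 1) φ LinearMap.id Z) =
      mp i φ LinearMap.id (pp (trivR G (LC K)) i Z) :=
    (mp_pp' φ i Z).symm
  rw [e2, mp_mp]
  rfl

theorem mp_zero_eq {M : Type} [AddCommGroup M] [Module ℚ M] (f : G → G) (z : T 0 G M) :
    mp 0 f LinearMap.id z = z := by
  have h : mp 0 f LinearMap.id = (LinearMap.id : T 0 G M →ₗ[ℚ] _) := by
    apply T_ext
    intro x m
    rw [mp_single]
    change single _ m = single x m
    congr 1
    exact Subsingleton.elim _ _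
  exact DFunLike.congr_fun h z

end Natural

end Pool.Agent.V11189.KU
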