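import Pool.Agent.V11189.KU.Mgn
import Pool.Agent.Y483.PW.Loc

/-!
Graph products and graph-wreath products, relative to a second factor.
-/

namespace Pool.Agent.V11189.KU

open Finsupp Monoid Pool.Agent.Y483 Pool.Agent.Y110.KW Pool.Agent.Y75.MQ CategoryTheory Pointwise
open Pool.Agent.V11187.MG

variable {B : Type} (d : B → ℕ) {F : GrpCat.{0} ⥤ ModuleCat.{0} ℚ} (α : ∀ b : B, hq (d b) ⟶ F)

/-- The trivial group. -/
theorem relP_unit {G : Type} [Group G] [Subsingleton G] : RelP d α G := by
  intro K _ hK
  exact ker_retract_b d α (MonoidHom.snd G K) (MonoidHom.inr G K)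
    (fun k => Prod.ext (Subsingleton.elim _ _) rfl) (ker_snd d α hK)

/-- Finite direct products. -/
theorem relP_pi (ι : Type) [Finite ι] : ∀ (P : ι → Type) [∀ i, Group (P i)],
    (∀ i, RelP d α (P i)) → RelP d α (∀ i, P i) := by
  induction ι using Finite.induction_empty_option with
  | of_equiv e ih =>
    intro P _ h
    refine relP_retract d α
      { toFun := fun f a => f (e a)
        map_one' := rfl
        map_mul' := fun _ _ => rfl }
      { toFun := fun f b => (Equiv.piCongrLeft P e) f b
        map_one' := by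
          funext b
          obtain ⟨a, rfl⟩ := e.surjective b
          exact Equiv.piCongrLeft_apply_apply P e _ a
        map_mul' := fun f g => by
          funext b
          obtain ⟨a, rfl⟩ := e.surjective b
          change (Equiv.piCongrLeft P e) (f * g) (e a) =
            (Equiv.piCongrLeft P e) f (e a) * (Equiv.piCongrLeft P e) g (e a)
          rw [Equiv.piCongrLeft_apply_apply, Equiv.piCongrLeft_apply_apply,
            Equiv.piCongrLeft_apply_apply]
          rfl } ?_ (ih (fun a => P (e a)) (fun a => h (e a)))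
    intro f
    funext b
    obtain ⟨a, rfl⟩ := e.surjective b
    exact Equiv.piCongrLeft_apply_apply P e _ a
  | h_empty =>
    intro P _ _
    exact relP_unit d α
  | h_option ih =>
    intro P _ h
    refine relP_retract d α
      { toFun := fun f => (f Option.none, fun a => f (Option.some a))
        map_one' := rfl
        map_mul' := fun _ _ => rfl }
      { toFun := fun x o => match o with
          | Option.none => x.1
          | Option.some a => x.2 a
        map_one' := by
          funext o
          cases o <;> rfl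
        map_mul' := fun x y => by
          funext o
          cases o <;> rfl } ?_
      (relP_prod d α (h Option.none) (ih (fun a => P (Option.some a))
        (fun a => h (Option.some a))))
    intro f
    funext o
    cases o <;> rfl

section Graph

variable {Γ V : Type} [Group Γ] [MulAction Γ V] {P : V → Type} [∀ v, Group (P v)]
  {ρ : Γ →* MulAut (CoprodI P)} (Λ : SimpleGraph V)

theorem qAct_fac (hI : PW.Preserves ρ (graphRel (P := P) Λ)) (γ : Γ) (v : V) (x : P v)
    (y : P (γ • v)) (h : ρ γ (CoprodI.of x) = CoprodI.of y) :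
    PW.qAct hI γ (Y110.KW.fac (graphRel Λ) v x) = Y110.KW.fac (graphRel Λ) (γ • v) y := by
  change (QuotientGroup.mk (ρ γ (CoprodI.of x)) : GP P Λ) = _
  rw [h]
  rfl

/-- **Graph-wreath products.** -/
theorem relP_gw (hE : PW.HasPT F) (hP : PW.Permutes ρ)
    (hI : PW.Preserves ρ (graphRel (P := P) Λ))
    (htriv : ∀ (γ : Γ) (v : V), γ • v = v → ∀ x : P v, ρ γ (CoprodI.of x) = CoprodI.of x)
    (h : ∀ v, RelP d α (P v))
    (hΓ : ∀ σ : Finset V, Λ.IsClique (σ : Set V) → RelP d α (fixingSubgroup Γ (σ : Set V))) :
    RelP d α (GP P Λ ⋊[PW.qAct hI] Γ) := by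
  classical
  apply relP_semi d α hE (PW.locSys (graphRel_local Λ) hP hI)
  intro σ
  have hcl : Λ.IsClique (σ.1 : Set V) := by
    intro u hu v hv huv
    by_contra hne
    exact σ.2 u hu v hv huv ((PW.locSys_adj (graphRel_local Λ) hP hI).amal u v huv
      (fun hl => hne (graphRel_linked Λ huv hl)))
  -- the projections to the vertex groups
  have hproj : ∀ (γ : Γ) (v : V), γ • v = v → ∀ n : GP P Λ,
      proj Λ v (PW.qAct hI γ n) = proj Λ v n := by
    intro γ v hv
    have e : (proj Λ v).comp (PW.qAct hI γ).toMonoidHom = proj (P := P) Λ v := by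
      apply quo_ext
      intro u x
      obtain ⟨y, hy⟩ := hP γ u x
      change proj Λ v (PW.qAct hI γ (Y110.KW.fac (graphRel Λ) u x)) = _
      by_cases huv : u = v
      · subst huv
        have h1 : PW.qAct hI γ (Y110.KW.fac (graphRel Λ) u x) = Y110.KW.fac (graphRel Λ) u x := by
          change (QuotientGroup.mk (ρ γ (CoprodI.of x)) : GP P Λ) = _
          rw [htriv γ u hv x]
          rfl
        rw [h1]
      · rw [qAct_fac Λ hI γ u x y hy, proj_fac_ne Λ huv, proj_fac_ne Λ]
        intro h2
        apply huv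
        have h3 : γ • u = γ • v := h2.trans hv.symm
        exact (MulAction.injective γ) h3
    intro n
    exact DFunLike.congr_fun e n
  -- the elements of the part are fixed
  have hfixc : ∀ (γ : Γ), (∀ v ∈ σ.1, γ • v = v) → ∀ f : (∀ v : σ.1, P v),
      PW.qAct hI γ (cliqueHom (P := P) Λ σ.1 hcl f) = cliqueHom (P := P) Λ σ.1 hcl f := by
    intro γ hγ
    have e : (PW.qAct hI γ).toMonoidHom.comp (cliqueHom (P := P) Λ σ.1 hcl) =
        cliqueHom (P := P) Λ σ.1 hcl := by
      apply MonoidHom.pi_ext
      intro v x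
      change PW.qAct hI γ (cliqueHom (P := P) Λ σ.1 hcl (Pi.mulSingle v x)) = _
      have e1 : cliqueHom (P := P) Λ σ.1 hcl (Pi.mulSingle v x) =
          Y110.KW.fac (graphRel Λ) (v : V) x := MonoidHom.noncommPiCoprod_mulSingle _ _ _
      rw [e1]
      change (QuotientGroup.mk (ρ γ (CoprodI.of x)) : GP P Λ) = _
      rw [htriv γ v (hγ v v.2) x]
      rfl
    intro f
    exact DFunLike.congr_fun e f
  -- the retraction to the part
  have hc : para (graphRel (P := P) Λ) (σ.1 : Set V) ≤
      ((cliqueHom (P := P) Λ σ.1 hcl).comp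
        (MonoidHom.pi fun v : σ.1 => proj Λ (v : V))).eqLocus (MonoidHom.id _) := by
    apply iSup₂_le
    rintro v hv _ ⟨x, rfl⟩
    change cliqueHom (P := P) Λ σ.1 hcl (fun w : σ.1 => proj Λ (w : V) (Y110.KW.fac (graphRel Λ) v x)) =
      Y110.KW.fac (graphRel Λ) v x
    have e : (fun w : σ.1 => proj Λ (w : V) (Y110.KW.fac (graphRel Λ) v x)) =
        Pi.mulSingle (⟨v, hv⟩ : σ.1) x := by
      funext w
      by_cases hw : w = (⟨v, hv⟩ : σ.1)
      · subst hw
        rw [Pi.mulSingle_eq_same]
        exact proj_fac_self Λ v x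
      · rw [Pi.mulSingle_eq_of_ne hw]
        exact proj_fac_ne Λ (fun h => hw (Subtype.ext h.symm)) x
    rw [e]
    exact MonoidHom.noncommPiCoprod_mulSingle _ _ _
  have hret : ∀ f : (∀ v : σ.1, P v), ret (graphRel_local Λ) (σ.1 : Set V) (cliqueHom (P := P) Λ σ.1 hcl f) =
      cliqueHom (P := P) Λ σ.1 hcl f := by
    have e : (ret (graphRel_local Λ) (σ.1 : Set V)).comp (cliqueHom (P := P) Λ σ.1 hcl) =
        cliqueHom (P := P) Λ σ.1 hcl := by
      apply MonoidHom.pi_ext
      intro v x
      change ret (graphRel_local Λ) (σ.1 : Set V) (cliqueHom (P := P) Λ σ.1 hcl (Pi.mulSingle v x)) = _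
      have e1 : cliqueHom (P := P) Λ σ.1 hcl (Pi.mulSingle v x) =
          Y110.KW.fac (graphRel Λ) (v : V) x := MonoidHom.noncommPiCoprod_mulSingle _ _ _
      rw [e1]
      exact ret_fac_mem (graphRel_local Λ) (S := (σ.1 : Set V)) v.2 x
    intro f
    exact DFunLike.congr_fun e f
  refine relP_retract d α (H := (∀ v : σ.1, P v) × fixingSubgroup Γ (σ.1 : Set V))
    { toFun := fun w => (fun v => proj Λ (v : V) w.1.left,
        ⟨w.1.right, (mem_fixingSubgroup_iff Γ).mpr w.2.2⟩)
      map_one' := by
        apply Prod.ext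
        · funext v
          exact map_one _
        · rfl
      map_mul' := fun w w' => by
        apply Prod.ext
        · funext v
          change proj Λ (v : V) (w.1.left * PW.qAct hI w.1.right w'.1.left) =
            proj Λ (v : V) w.1.left * proj Λ (v : V) w'.1.left
          rw [map_mul, hproj w.1.right v (w.2.2 v v.2)]
        · rfl }
    { toFun := fun x => ⟨⟨cliqueHom (P := P) Λ σ.1 hcl x.1, x.2.1⟩, hret x.1,
        (mem_fixingSubgroup_iff Γ).mp x.2.2⟩
      map_one' := by
        apply Subtype.ext
        apply SemidirectProduct.ext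
        · exact map_one _
        · rfl
      map_mul' := fun x y => by
        apply Subtype.ext
        apply SemidirectProduct.ext
        · change cliqueHom (P := P) Λ σ.1 hcl (x.1 * y.1) =
            cliqueHom (P := P) Λ σ.1 hcl x.1 *
              PW.qAct hI x.2.1 (cliqueHom (P := P) Λ σ.1 hcl y.1)
          rw [map_mul, hfixc x.2.1 ((mem_fixingSubgroup_iff Γ).mp x.2.2)]
        · rfl } ?_
    (relP_prod d α (relP_pi d α σ.1 (fun v : σ.1 => P v) (fun v => h v)) (hΓ σ.1 hcl))
  intro w
  apply Subtype.ext
  apply SemidirectProduct.ext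
  · have h1 : w.1.left ∈ para (graphRel (P := P) Λ) (σ.1 : Set V) := by
      rw [← ret_range (graphRel_local Λ)]
      exact ⟨w.1.left, w.2.1⟩
    exact hc h1
  · rfl

end Graph

/-- **Graph products.** -/
theorem relP_graph (hE : PW.HasPT F) {V : Type} (P : V → Type) [∀ v, Group (P v)]
    (Λ : SimpleGraph V) (h : ∀ v, RelP d α (P v)) : RelP d α (GP P Λ) := by
  let _ := trivAct V
  have hP : PW.Permutes (rho0 P) := fun γ v x => ⟨x, rfl⟩
  have hI : PW.Preserves (rho0 P) (graphRel (P := P) Λ) := fun _ _ hr => hr
  have h1 : RelP d α (GP P Λ ⋊[PW.qAct hI] Unit) :=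
    relP_gw d α Λ hE hP hI (fun _ _ _ _ => rfl) h (fun _ _ => relP_unit d α)
  refine relP_retract d α (SemidirectProduct.inl : GP P Λ →* GP P Λ ⋊[PW.qAct hI] Unit)
    { toFun := fun w => w.left
      map_one' := rfl
      map_mul' := fun w w' => by
        change w.left * PW.qAct hI w.right w'.left = w.left * w'.left
        have h2 : w.right = 1 := rfl
        rw [h2, map_one]
        rfl } (fun _ => rfl) h1

end Pool.Agent.V11189.KU
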