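import Pool.Agent.V11189.KU.Lst

/-!
The Alexander-Whitney map, the shuffle map and the homotopy, on homogeneous chains.
-/

namespace Pool.Agent.V11189.KU

open Finsupp Pool.Agent.Y483

section Basic

variable {X Y X' Y' : Type}

/-- The boundary on the coefficients. -/
noncomputable def bY (i : ℕ) : T i X (LC Y) →ₗ[ℚ] T i X (LC Y) := mp i id bdL

theorem bY_single (i : ℕ) (x : Fin i → X) (m : LC Y) : bY i (single x m) = single x (bdL m) := by
  rw [bY, mp_single]
  rfl

theorem bY_bY (i : ℕ) (w : T i X (LC Y)) : bY i (bY i w) = 0 := by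
  have h : (bY i) ∘ₗ (bY i) = (0 : T i X (LC Y) →ₗ[ℚ] T i X (LC Y)) := by
    apply T_ext
    intro x m
    rw [LinearMap.comp_apply, bY_single, bY_single, bdL_bdL, single_zero]
    rfl
  exact DFunLike.congr_fun h w

theorem bd_bY (i : ℕ) (w : T (i + 1) X (LC Y)) : bd i (bY (i + 1) w) = bY i (bd i w) :=
  bd_mp i id bdL w

theorem bY_cone (i : ℕ) (a : X) (w : T i X (LC Y)) :
    bY (i + 1) (cone i a w) = cone i a (bY i w) := mp_cone i id bdL a w

/-- Chains on the empty tuple. -/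
noncomputable def c0 : LC Y →ₗ[ℚ] T 0 X (LC Y) := lsingle Fin.elim0

theorem bY_c0 (m : LC Y) : bY 0 (c0 m : T 0 X (LC Y)) = c0 (bdL m) := bY_single 0 _ m

/-- The Alexander-Whitney map. -/
noncomputable def A : (n i : ℕ) → (T (n + 1) (X × Y) ℚ →ₗ[ℚ] T (i + 1) X (LC Y))
  | _, 0 => lsum ℚ fun x => (lsingle (fun _ => (x 0).1)) ∘ₗ (lsingle (List.ofFn fun j => (x j).2))
  | 0, _ + 1 => 0
  | n + 1, i + 1 => lsum ℚ fun x => (cone (i + 1) (x 0).1) ∘ₗ (A n i) ∘ₗ (lsingle (Fin.tail x))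

theorem A_zero (n : ℕ) (a : X × Y) (z : T n (X × Y) ℚ) :
    A n 0 (cone n a z) =
      cone 0 a.1 (c0 (consL a.2 (lst n (mp n Prod.snd LinearMap.id z)))) := by
  have h : (A n 0) ∘ₗ (cone n a) =
      (cone 0 a.1) ∘ₗ c0 ∘ₗ (consL a.2) ∘ₗ (lst n) ∘ₗ
        (mp n (Prod.snd : X × Y → Y) (LinearMap.id : ℚ →ₗ[ℚ] ℚ)) := by
    apply T_ext
    intro x r
    simp only [LinearMap.comp_apply, cone_single, mp_single, lst_single, consL_single]
    rw [A, Finsupp.lsum_single, LinearMap.comp_apply, lsingle_apply, lsingle_apply, c0,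
      lsingle_apply, cone_single, List.ofFn_succ]
    congr 1
    funext i
    have : i = 0 := Fin.ext (by have := i.2; omega)
    subst this
    rfl
  exact DFunLike.congr_fun h z

theorem A_succ (n i : ℕ) (a : X × Y) (z : T (n + 1) (X × Y) ℚ) :
    A (n + 1) (i + 1) (cone (n + 1) a z) = cone (i + 1) a.1 (A n i z) := by
  have h : (A (n + 1) (i + 1)) ∘ₗ (cone (n + 1) a) = (cone (i + 1) a.1) ∘ₗ (A n i) := by
    apply T_ext
    intro x r
    rw [LinearMap.comp_apply, cone_single, A, Finsupp.lsum_single, LinearMap.comp_apply,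
      LinearMap.comp_apply, lsingle_apply, Fin.cons_zero, Fin.tail_cons, LinearMap.comp_apply]
  exact DFunLike.congr_fun h z

theorem bd_A_zero (n : ℕ) (y : T (n + 1) (X × Y) ℚ) :
    bd 0 (A n 0 y) = c0 (lst (n + 1) (mp (n + 1) Prod.snd LinearMap.id y)) := by
  have h : (bd 0) ∘ₗ (A n 0) = c0 ∘ₗ (lst (n + 1)) ∘ₗ
      (mp (n + 1) (Prod.snd : X × Y → Y) (LinearMap.id : ℚ →ₗ[ℚ] ℚ)) := by
    apply T_ext
    intro x r
    rw [LinearMap.comp_apply, LinearMap.comp_apply, LinearMap.comp_apply, single_eq_cone, A_zero,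
      bd_cone_zero, mp_cone, lst_cone]
  exact DFunLike.congr_fun h y

theorem A_bd (n : ℕ) : ∀ (i : ℕ), i ≤ n → ∀ z : T (n + 2) (X × Y) ℚ,
    A n i (bd (n + 1) z) =
      bd (i + 1) (A (n + 1) (i + 1) z) + ((-1 : ℚ) ^ i) • bY (i + 1) (A (n + 1) i z) := by
  induction n with
  | zero =>
    intro i hi z
    obtain rfl : i = 0 := by omega
    have h : (A 0 0) ∘ₗ (bd 1) = (bd 1) ∘ₗ (A 1 1) + ((-1 : ℚ) ^ 0) • ((bY 1) ∘ₗ
        (A (X := X) (Y := Y) 1 0)) := by
      apply T_ext
      intro x r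
      rw [single_eq_cone]
      set a := x 0
      set y : T 1 (X × Y) ℚ := single (Fin.tail x) r
      rw [LinearMap.comp_apply, LinearMap.add_apply, LinearMap.smul_apply, LinearMap.comp_apply,
        LinearMap.comp_apply, bd_cone_succ, map_sub, A_zero, A_succ, A_zero, bd_cone_succ,
        bd_A_zero, bY_cone, bY_c0, bdL_cons, ← bd_mp, lst_bd, pow_zero, one_smul]
      simp only [map_sub]
      abel
    exact DFunLike.congr_fun h z
  | succ n ih =>
    intro i hi z
    cases i with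
    | zero =>
      have h : (A (n + 1) 0) ∘ₗ (bd (n + 2)) = (bd 1) ∘ₗ (A (n + 2) 1) + ((-1 : ℚ) ^ 0) •
          ((bY 1) ∘ₗ (A (X := X) (Y := Y) (n + 2) 0)) := by
        apply T_ext
        intro x r
        rw [single_eq_cone]
        set a := x 0
        set y : T (n + 2) (X × Y) ℚ := single (Fin.tail x) r
        rw [LinearMap.comp_apply, LinearMap.add_apply, LinearMap.smul_apply, LinearMap.comp_apply,
          LinearMap.comp_apply, bd_cone_succ, map_sub, A_zero, A_succ, A_zero, bd_cone_succ,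
          bd_A_zero, bY_cone, bY_c0, bdL_cons, ← bd_mp, lst_bd, pow_zero, one_smul]
        simp only [map_sub]
        abel
      exact DFunLike.congr_fun h z
    | succ i =>
      have h : (A (n + 1) (i + 1)) ∘ₗ (bd (n + 2)) = (bd (i + 2)) ∘ₗ (A (n + 2) (i + 2)) +
          ((-1 : ℚ) ^ (i + 1)) • ((bY (i + 2)) ∘ₗ (A (X := X) (Y := Y) (n + 2) (i + 1))) := by
        apply T_ext
        intro x r
        rw [single_eq_cone]
        set a := x 0
        set y : T (n + 2) (X × Y) ℚ := single (Fin.tail x) r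
        rw [LinearMap.comp_apply, LinearMap.add_apply, LinearMap.smul_apply, LinearMap.comp_apply,
          LinearMap.comp_apply, bd_cone_succ, map_sub, A_succ, A_succ, A_succ, bd_cone_succ,
          bY_cone, ih i (by omega) y, map_add, map_smul, pow_succ, mul_neg_one, neg_smul]
        abel
      exact DFunLike.congr_fun h z

end Basic

section Shuffle

variable {X Y : Type}

/-- The shuffle map in degree zero. -/
noncomputable def B0 : T 1 X (LC Y) →ₗ[ℚ] T 1 (X × Y) ℚ := lsum ℚ fun x => lsum ℚ fun l =>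
  match l with
  | [y] => lsingle (fun _ => (x 0, y))
  | _ => 0

/-- The cone with apex the pair of the first elements. -/
noncomputable def NC {n i : ℕ} (F : T (i + 1) X (LC Y) →ₗ[ℚ] T (n + 1) (X × Y) ℚ) :
    T (i + 1) X (LC Y) →ₗ[ℚ] T (n + 2) (X × Y) ℚ := lsum ℚ fun x => lsum ℚ fun l =>
  match l with
  | [] => 0
  | y :: l' => (cone (n + 1) (x 0, y)) ∘ₗ F ∘ₗ (lsingle x) ∘ₗ (lsingle (y :: l'))

theorem NC_nil {n i : ℕ} (F : T (i + 1) X (LC Y) →ₗ[ℚ] T (n + 1) (X × Y) ℚ)
    (x : Fin (i + 1) → X) (r : ℚ) : NC F (single x (single [] r)) = 0 := by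
  unfold NC
  rw [Finsupp.lsum_single, Finsupp.lsum_single]
  rfl

theorem NC_cons {n i : ℕ} (F : T (i + 1) X (LC Y) →ₗ[ℚ] T (n + 1) (X × Y) ℚ)
    (x : Fin (i + 1) → X) (y : Y) (l : List Y) (r : ℚ) : NC F (single x (single (y :: l) r)) =
      cone (n + 1) (x 0, y) (F (single x (single (y :: l) r))) := by
  unfold NC
  rw [Finsupp.lsum_single, Finsupp.lsum_single]
  rfl

/-- The shuffle map. -/
noncomputable def NN : (n i : ℕ) → (T i X (LC Y) →ₗ[ℚ] T (n + 1) (X × Y) ℚ)
  | _, 0 => 0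
  | 0, 1 => B0
  | 0, _ + 2 => 0
  | n + 1, i + 1 => NC ((NN n i) ∘ₗ (bd i) + ((-1 : ℚ) ^ i) • ((NN n (i + 1)) ∘ₗ (bY (i + 1))))

theorem NN_zero (n : ℕ) : (NN n 0 : T 0 X (LC Y) →ₗ[ℚ] T (n + 1) (X × Y) ℚ) = 0 := by
  cases n <;> rfl

theorem NN_01 : (NN 0 1 : T 1 X (LC Y) →ₗ[ℚ] T 1 (X × Y) ℚ) = B0 := rfl

theorem NN_0 (i : ℕ) : (NN 0 (i + 2) : T (i + 2) X (LC Y) →ₗ[ℚ] T 1 (X × Y) ℚ) = 0 := rfl

/-- The argument of the cone. -/
noncomputable def UU (n i : ℕ) : T (i + 1) X (LC Y) →ₗ[ℚ] T (n + 1) (X × Y) ℚ :=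
  (NN n i) ∘ₗ (bd i) + ((-1 : ℚ) ^ i) • ((NN n (i + 1)) ∘ₗ (bY (i + 1)))

theorem NN_succ (n i : ℕ) : (NN (n + 1) (i + 1) : T (i + 1) X (LC Y) →ₗ[ℚ] _) = NC (UU n i) := by
  rw [NN]
  rfl

theorem UU_apply (n i : ℕ) (w : T (i + 1) X (LC Y)) :
    UU n i w = NN n i (bd i w) + ((-1 : ℚ) ^ i) • NN n (i + 1) (bY (i + 1) w) := rfl

theorem NN_big (n : ℕ) : ∀ i, n + 1 < i → (NN n i : T i X (LC Y) →ₗ[ℚ] _) = 0 := by
  induction n with
  | zero =>
    intro i hi
    obtain ⟨j, rfl⟩ : ∃ j, i = j + 2 := ⟨i - 2, by omega⟩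
    rfl
  | succ n ih =>
    intro i hi
    obtain ⟨j, rfl⟩ : ∃ j, i = j + 1 := ⟨i - 1, by omega⟩
    rw [NN_succ]
    have h : (UU n j : T (j + 1) X (LC Y) →ₗ[ℚ] _) = 0 := by
      apply LinearMap.ext
      intro w
      rw [UU_apply, ih j (by omega), ih (j + 1) (by omega)]
      simp
    apply TI_ext
    intro x l r
    cases l with
    | nil => rw [NC_nil]; rfl
    | cons y l =>
      rw [NC_cons, h]
      simp

theorem NN_nil (n i : ℕ) (z : T i X ℚ) : NN n i (mp i id (lsingle ([] : List Y)) z) = 0 := by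
  have h : (NN n i) ∘ₗ (mp i id (lsingle ([] : List Y))) = (0 : T i X ℚ →ₗ[ℚ] _) := by
    apply T_ext
    intro x r
    rw [LinearMap.comp_apply, mp_single, lsingle_apply]
    cases n with
    | zero =>
      match i with
      | 0 => rw [NN_zero]; rfl
      | 1 =>
        rw [NN_01, B0, Finsupp.lsum_single, Finsupp.lsum_single]
        rfl
      | i + 2 => rw [NN_0]; rfl
    | succ n =>
      cases i with
      | zero => rw [NN_zero]; rfl
      | succ i => rw [NN_succ]; exact NC_nil _ _ _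
  exact DFunLike.congr_fun h z

/-- The coefficient of the lists with one element. -/
noncomputable def l1 : LC Y →ₗ[ℚ] ℚ := lsum ℚ fun l => match l with
  | [_] => LinearMap.id
  | _ => 0

/-- The coefficient of the empty list. -/
noncomputable def l0 : LC Y →ₗ[ℚ] ℚ := lsum ℚ fun l => match l with
  | [] => LinearMap.id
  | _ => 0

theorem l1_cons (a : Y) (z : LC Y) : l1 (consL a z) = l0 z := by
  have h : l1 ∘ₗ (consL a) = l0 := by
    apply lhom_ext
    intro l r
    rw [LinearMap.comp_apply, consL_single, l1, l0, Finsupp.lsum_single, Finsupp.lsum_single]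
    cases l <;> rfl
  exact DFunLike.congr_fun h z

theorem l0_cons (a : Y) (z : LC Y) : l0 (consL a z) = 0 := by
  have h : l0 ∘ₗ (consL a) = 0 := by
    apply lhom_ext
    intro l r
    rw [LinearMap.comp_apply, consL_single, l0, Finsupp.lsum_single]
    rfl
  exact DFunLike.congr_fun h z

theorem l0_bdL (z : LC Y) : l0 (bdL z) = l1 z := by
  have h : l0 ∘ₗ bdL = (l1 : LC Y →ₗ[ℚ] ℚ) := by
    apply lhom_ext
    intro l r
    rw [LinearMap.comp_apply]
    cases l with
    | nil =>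
      rw [bdL_nil, map_zero, l1, Finsupp.lsum_single]
      rfl
    | cons a l =>
      rw [← consL_single, bdL_cons, map_sub, l0_cons, sub_zero, l1_cons]
  exact DFunLike.congr_fun h z

theorem l1_bdL (z : LC Y) : l1 (bdL z) = 0 := by
  have h : l1 ∘ₗ bdL = (0 : LC Y →ₗ[ℚ] ℚ) := by
    apply lhom_ext
    intro l r
    rw [LinearMap.comp_apply]
    cases l with
    | nil =>
      rw [bdL_nil, map_zero]
      rfl
    | cons a l =>
      rw [← consL_single, bdL_cons, map_sub, l1_cons, l0_bdL, sub_self]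
      rfl
  exact DFunLike.congr_fun h z

/-- The augmentation. -/
noncomputable def eps : T 0 X (LC Y) →ₗ[ℚ] T 0 (X × Y) ℚ := lsum ℚ fun _ => (lsingle Fin.elim0) ∘ₗ l1

theorem eps_bY (z : T 0 X (LC Y)) : eps (bY 0 z) = 0 := by
  have h : eps ∘ₗ (bY 0) = (0 : T 0 X (LC Y) →ₗ[ℚ] _) := by
    apply T_ext
    intro x m
    rw [LinearMap.comp_apply, bY_single, eps, Finsupp.lsum_single, LinearMap.comp_apply, l1_bdL,
      map_zero]
    rfl
  exact DFunLike.congr_fun h z

theorem bd_B0 (w : T 1 X (LC Y)) : bd 0 (B0 w) = eps (bd 0 w) := by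
  have h : (bd 0) ∘ₗ B0 = eps ∘ₗ (bd (M := LC Y) (X := X) 0) := by
    apply TI_ext
    intro x l r
    rw [LinearMap.comp_apply, LinearMap.comp_apply, single_eq_cone, bd_cone_zero, ← single_eq_cone,
      B0, eps, Finsupp.lsum_single, Finsupp.lsum_single, Finsupp.lsum_single,
      LinearMap.comp_apply, l1, Finsupp.lsum_single]
    match l with
    | [] => simp
    | [y] =>
      change bd 0 (single (fun _ => (x 0, y)) r) = single Fin.elim0 r
      rw [single_eq_cone, bd_cone_zero]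
      congr 1
      exact Subsingleton.elim _ _
    | y :: y' :: l => simp
  exact DFunLike.congr_fun h w

theorem bd_NN_of (n i : ℕ) (h : ∀ w : T (i + 1) X (LC Y), bd n (UU n i w) = 0)
    (w : T (i + 1) X (LC Y)) : bd (n + 1) (NN (n + 1) (i + 1) w) = UU n i w := by
  have h2 : (bd (n + 1)) ∘ₗ (NN (n + 1) (i + 1)) = (UU n i : T (i + 1) X (LC Y) →ₗ[ℚ] _) := by
    apply TI_ext
    intro x l r
    rw [LinearMap.comp_apply, NN_succ]
    cases l with
    | nil =>
      rw [NC_nil, map_zero, UU_apply]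
      have e1 : (single x (single ([] : List Y) r) : T (i + 1) X (LC Y)) =
          mp (i + 1) id (lsingle ([] : List Y)) (single x r) := by
        rw [mp_single]; rfl
      have e2 : bY (i + 1) (single x (single ([] : List Y) r) : T (i + 1) X (LC Y)) = 0 := by
        rw [bY_single, bdL_nil, single_zero]
      rw [e2, map_zero, smul_zero, add_zero, e1, bd_mp, NN_nil]
    | cons y l =>
      rw [NC_cons, bd_cone_succ, h, map_zero, sub_zero]
  exact DFunLike.congr_fun h2 w

theorem bd_UU (n : ℕ) : ∀ (i : ℕ) (w : T (i + 1) X (LC Y)), bd n (UU n i w) = 0 := by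
  induction n with
  | zero =>
    intro i w
    match i with
    | 0 =>
      have e : UU 0 0 w = B0 (bY 1 w) := by
        rw [UU_apply, NN_zero, NN_01, pow_zero, one_smul]
        exact zero_add _
      rw [e, bd_B0, bd_bY, eps_bY]
    | 1 =>
      have e : UU 0 1 w = B0 (bd 1 w) := by
        rw [UU_apply, NN_01, NN_0, LinearMap.zero_apply, smul_zero, add_zero]
      rw [e, bd_B0, bd_bd, map_zero]
    | i + 2 =>
      rw [UU_apply, NN_0, NN_0, LinearMap.zero_apply, LinearMap.zero_apply, smul_zero, add_zero,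
        map_zero]
  | succ n ih =>
    intro i w
    rw [UU_apply, map_add, map_smul]
    cases i with
    | zero =>
      rw [NN_zero, LinearMap.zero_apply, map_zero, zero_add, bd_NN_of n 0 (ih 0), UU_apply,
        NN_zero, bY_bY]
      simp
    | succ k =>
      rw [bd_NN_of n k (ih k), bd_NN_of n (k + 1) (ih (k + 1)), UU_apply, UU_apply, bd_bd, bY_bY,
        map_zero, map_zero, zero_add, smul_zero, add_zero, bd_bY, pow_succ, mul_neg_one, neg_smul,
        add_neg_cancel]

theorem bd_NN (n i : ℕ) (w : T (i + 1) X (LC Y)) :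
    bd (n + 1) (NN (n + 1) (i + 1) w) =
      NN n i (bd i w) + ((-1 : ℚ) ^ i) • NN n (i + 1) (bY (i + 1) w) :=
  bd_NN_of n i (bd_UU n i) w

end Shuffle

end Pool.Agent.V11189.KU
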