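import Pool.Agent.V11189.KU.Hom

/-!
The homotopy between the composition of the Alexander-Whitney map and the shuffle map and the
identity; naturality.
-/

namespace Pool.Agent.V11189.KU

open Finsupp Pool.Agent.Y483

section Homotopy

variable {X Y : Type}

/-- The composition of the Alexander-Whitney map and the shuffle map. -/
noncomputable def Th0 (n : ℕ) : T (n + 1) (X × Y) ℚ →ₗ[ℚ] T (n + 1) (X × Y) ℚ :=
  ∑ i ∈ Finset.range (n + 1), (NN n (i + 1)) ∘ₗ (A n i)

theorem Th0_apply (n : ℕ) (z : T (n + 1) (X × Y) ℚ) :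
    Th0 n z = ∑ i ∈ Finset.range (n + 1), NN n (i + 1) (A n i z) := by
  rw [Th0, LinearMap.sum_apply]
  rfl

theorem Th0_zero (z : T 1 (X × Y) ℚ) : Th0 0 z = z := by
  have h : Th0 0 = (LinearMap.id : T 1 (X × Y) ℚ →ₗ[ℚ] _) := by
    apply T_ext
    intro x r
    rw [Th0_apply, Finset.sum_range_one, LinearMap.id_apply]
    conv_lhs => rw [single_eq_cone]
    rw [A_zero]
    have e : lst 0 (mp 0 Prod.snd LinearMap.id (single (Fin.tail x) r)) =
        (single ([] : List Y) r : LC Y) := by simp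
    rw [e, consL_single, c0, lsingle_apply, cone_single]
    change B0 _ = _
    rw [B0, Finsupp.lsum_single, Finsupp.lsum_single]
    change single (fun _ => ((Fin.cons (x 0).1 Fin.elim0 : Fin 1 → X) 0, (x 0).2)) r = _
    congr 1
    funext i
    have : i = 0 := Fin.ext (by have := i.2; omega)
    subst this
    rfl
  exact DFunLike.congr_fun h z

theorem bd_Th0 (n : ℕ) (z : T (n + 2) (X × Y) ℚ) :
    bd (n + 1) (Th0 (n + 1) z) = Th0 n (bd (n + 1) z) := by
  rw [Th0_apply, Th0_apply, map_sum]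
  have e1 : ∀ i ∈ Finset.range (n + 2), bd (n + 1) (NN (n + 1) (i + 1) (A (n + 1) i z)) =
      NN n i (bd i (A (n + 1) i z)) +
        ((-1 : ℚ) ^ i) • NN n (i + 1) (bY (i + 1) (A (n + 1) i z)) :=
    fun i _ => bd_NN n i _
  have e2 : ∀ i ∈ Finset.range (n + 1), NN n (i + 1) (A n i (bd (n + 1) z)) =
      NN n (i + 1) (bd (i + 1) (A (n + 1) (i + 1) z)) +
        ((-1 : ℚ) ^ i) • NN n (i + 1) (bY (i + 1) (A (n + 1) i z)) := by
    intro i hi
    rw [A_bd n i (by rw [Finset.mem_range] at hi; omega), map_add, map_smul]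
  rw [Finset.sum_congr rfl e1, Finset.sum_congr rfl e2, Finset.sum_add_distrib,
    Finset.sum_add_distrib, Finset.sum_range_succ' (fun i => NN n i (bd i (A (n + 1) i z))),
    Finset.sum_range_succ (fun i => ((-1 : ℚ) ^ i) • NN n (i + 1) (bY (i + 1) (A (n + 1) i z))),
    NN_zero, NN_big n (n + 1 + 1) (by omega)]
  simp

/-- The homotopy. -/
noncomputable def hh : (n : ℕ) → (T n (X × Y) ℚ →ₗ[ℚ] T (n + 1) (X × Y) ℚ)
  | 0 => 0
  | 1 => 0
  | n + 2 => lsum ℚ fun x => (cone (n + 2) (x 0)) ∘ₗ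
      (LinearMap.id - Th0 (n + 1) - (hh (n + 1)) ∘ₗ (bd (n + 1))) ∘ₗ (lsingle x)

theorem hh_single (n : ℕ) (x : Fin (n + 2) → X × Y) (r : ℚ) : hh (n + 2) (single x r) =
    cone (n + 2) (x 0) (single x r - Th0 (n + 1) (single x r) -
      hh (n + 1) (bd (n + 1) (single x r))) := by
  rw [hh, Finsupp.lsum_single]
  rfl

theorem bd_hh (n : ℕ) (z : T (n + 1) (X × Y) ℚ) :
    bd (n + 1) (hh (n + 1) z) + hh n (bd n z) = z - Th0 n z := by
  induction n with
  | zero =>
    rw [Th0_zero, sub_self]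
    change bd 1 ((0 : T 1 (X × Y) ℚ →ₗ[ℚ] _) z) + (0 : T 0 (X × Y) ℚ →ₗ[ℚ] _) (bd 0 z) = 0
    simp
  | succ n ih =>
    have h : (bd (n + 2)) ∘ₗ (hh (n + 2)) + (hh (n + 1)) ∘ₗ (bd (n + 1)) =
        LinearMap.id - (Th0 (n + 1) : T (n + 2) (X × Y) ℚ →ₗ[ℚ] _) := by
      apply T_ext
      intro x r
      rw [LinearMap.add_apply, LinearMap.comp_apply, LinearMap.comp_apply, hh_single, bd_cone_succ,
        map_sub (bd (n + 1)), map_sub (bd (n + 1)), bd_Th0]
      have e := ih (bd (n + 1) (single x r))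
      rw [bd_bd, map_zero, add_zero] at e
      rw [e, sub_self, map_zero, sub_zero, LinearMap.sub_apply, LinearMap.id_apply]
      abel
    exact DFunLike.congr_fun h z

end Homotopy

section Natural

variable {X Y X' Y' : Type} (f : X → X') (g : Y → Y')

theorem A_mp (n : ℕ) : ∀ (i : ℕ) (z : T (n + 1) (X × Y) ℚ),
    A n i (mp (n + 1) (Prod.map f g) LinearMap.id z) = mp (i + 1) f (mapL g) (A n i z) := by
  have hz : ∀ (n : ℕ) (z : T (n + 1) (X × Y) ℚ),
      A n 0 (mp (n + 1) (Prod.map f g) LinearMap.id z) = mp 1 f (mapL g) (A n 0 z) := by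
    intro n z
    have h : (A n 0) ∘ₗ (mp (n + 1) (Prod.map f g) LinearMap.id) =
        (mp 1 f (mapL g)) ∘ₗ (A (X := X) (Y := Y) n 0) := by
      apply T_ext
      intro x r
      rw [LinearMap.comp_apply, LinearMap.comp_apply, single_eq_cone, mp_cone, A_zero, A_zero,
        mp_cone, mp_mp]
      have e : (Prod.snd ∘ Prod.map f g : X × Y → Y') = g ∘ Prod.snd := rfl
      have e2 : mp 0 f (mapL g) (c0 (consL (x 0).2 (lst n (mp n Prod.snd LinearMap.id
          (single (Fin.tail x) r))))) = c0 (mapL g (consL (x 0).2 (lst n (mp n Prod.snd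
            LinearMap.id (single (Fin.tail x) r))))) := by
        rw [c0, lsingle_apply, mp_single]
        change _ = single _ _
        congr 1
        exact Subsingleton.elim _ _
      rw [e2, mapL_cons, ← lst_mp, mp_mp, e]
      rfl
    exact DFunLike.congr_fun h z
  induction n with
  | zero =>
    intro i z
    cases i with
    | zero => exact hz 0 z
    | succ i =>
      change (0 : T 1 (X' × Y') ℚ →ₗ[ℚ] _) _ = mp (i + 2) f (mapL g) ((0 : T 1 (X × Y) ℚ →ₗ[ℚ] _) z)
      simp
  | succ n ih =>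
    intro i z
    cases i with
    | zero => exact hz (n + 1) z
    | succ i =>
      have h : (A (n + 1) (i + 1)) ∘ₗ (mp (n + 2) (Prod.map f g) LinearMap.id) =
          (mp (i + 2) f (mapL g)) ∘ₗ (A (X := X) (Y := Y) (n + 1) (i + 1)) := by
        apply T_ext
        intro x r
        rw [LinearMap.comp_apply, LinearMap.comp_apply, single_eq_cone, mp_cone, A_succ, A_succ,
          mp_cone, ih]
        rfl
      exact DFunLike.congr_fun h z

theorem B0_mp (w : T 1 X (LC Y)) :
    B0 (mp 1 f (mapL g) w) = mp 1 (Prod.map f g) LinearMap.id (B0 w) := by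
  have h : B0 ∘ₗ (mp 1 f (mapL g)) = (mp 1 (Prod.map f g) LinearMap.id) ∘ₗ B0 := by
    apply TI_ext
    intro x l r
    rw [LinearMap.comp_apply, LinearMap.comp_apply, mp_single, mapL_single, B0, B0,
      Finsupp.lsum_single, Finsupp.lsum_single, Finsupp.lsum_single, Finsupp.lsum_single]
    match l with
    | [] => simp
    | [y] =>
      change single _ r = mp 1 (Prod.map f g) LinearMap.id (single _ r)
      rw [mp_single]
      rfl
    | y :: y' :: l => simp
  exact DFunLike.congr_fun h w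

theorem bY_mp (i : ℕ) (w : T i X (LC Y)) :
    bY i (mp i f (mapL g) w) = mp i f (mapL g) (bY i w) := by
  rw [bY, bY, mp_mp, mp_mp]
  congr 2
  apply LinearMap.ext
  intro m
  exact bdL_mapL g m

theorem NN_mp (n : ℕ) : ∀ (i : ℕ) (w : T i X (LC Y)),
    NN n i (mp i f (mapL g) w) = mp (n + 1) (Prod.map f g) LinearMap.id (NN n i w) := by
  induction n with
  | zero =>
    intro i w
    match i with
    | 0 => rw [NN_zero, NN_zero]; simp
    | 1 => rw [NN_01, NN_01, B0_mp]
    | i + 2 => rw [NN_0, NN_0]; simp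
  | succ n ih =>
    intro i w
    cases i with
    | zero => rw [NN_zero, NN_zero]; simp
    | succ i =>
      have hU : ∀ w : T (i + 1) X (LC Y), UU n i (mp (i + 1) f (mapL g) w) =
          mp (n + 1) (Prod.map f g) LinearMap.id (UU n i w) := by
        intro w
        rw [UU_apply, UU_apply, bd_mp, bY_mp, ih, ih, map_add, map_smul]
      have h : (NN (n + 1) (i + 1)) ∘ₗ (mp (i + 1) f (mapL g)) =
          (mp (n + 2) (Prod.map f g) LinearMap.id) ∘ₗ (NN (X := X) (Y := Y) (n + 1) (i + 1)) := by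
        apply TI_ext
        intro x l r
        rw [LinearMap.comp_apply, LinearMap.comp_apply, NN_succ, NN_succ]
        cases l with
        | nil =>
          rw [NC_nil, mp_single, mapL_single, List.map_nil, NC_nil, map_zero]
        | cons y l =>
          rw [NC_cons, mp_cone, ← hU, mp_single, mapL_single, List.map_cons, NC_cons]
          rfl
      exact DFunLike.congr_fun h w

theorem Th0_mp (n : ℕ) (z : T (n + 1) (X × Y) ℚ) :
    Th0 n (mp (n + 1) (Prod.map f g) LinearMap.id z) =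
      mp (n + 1) (Prod.map f g) LinearMap.id (Th0 n z) := by
  rw [Th0_apply, Th0_apply, map_sum]
  apply Finset.sum_congr rfl
  intro i _
  rw [A_mp, NN_mp]

theorem hh_mp (n : ℕ) (z : T n (X × Y) ℚ) :
    hh n (mp n (Prod.map f g) LinearMap.id z) =
      mp (n + 1) (Prod.map f g) LinearMap.id (hh n z) := by
  match n with
  | 0 =>
    change (0 : T 0 (X' × Y') ℚ →ₗ[ℚ] _) _ =
      mp 1 (Prod.map f g) LinearMap.id ((0 : T 0 (X × Y) ℚ →ₗ[ℚ] _) z)
    simp
  | 1 =>
    change (0 : T 1 (X' × Y') ℚ →ₗ[ℚ] _) _ =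
      mp 2 (Prod.map f g) LinearMap.id ((0 : T 1 (X × Y) ℚ →ₗ[ℚ] _) z)
    simp
  | n + 2 =>
    have h : (hh (n + 2)) ∘ₗ (mp (n + 2) (Prod.map f g) LinearMap.id) =
        (mp (n + 3) (Prod.map f g) LinearMap.id) ∘ₗ (hh (X := X) (Y := Y) (n + 2)) := by
      apply T_ext
      intro x r
      have ih := hh_mp (n + 1) (bd (n + 1) (single x r))
      have e : mp (n + 2) (Prod.map f g) LinearMap.id (single x r : T (n + 2) (X × Y) ℚ) =
        single (Prod.map f g ∘ x) r := by rw [mp_single]; rfl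
      rw [LinearMap.comp_apply, LinearMap.comp_apply, e, hh_single, hh_single, mp_cone, ← e,
        Th0_mp, bd_mp, ih]
      simp only [map_sub]
      rfl
    exact DFunLike.congr_fun h z

end Natural

end Pool.Agent.V11189.KU
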