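import Pool.Agent.V11189.KU.Hty
import Pool.Agent.Y483.Wang

/-!
The Alexander-Whitney map and the shuffle map on inhomogeneous chains of groups.
-/

namespace Pool.Agent.V11189.KU

open Finsupp Pool.Agent.Y483

section Inh

variable {G K : Type} [Group G] [Group K] {V : Type} [AddCommGroup V] [Module ℚ V]

/-- From homogeneous to inhomogeneous chains, in both variables. -/
noncomputable def pG (i : ℕ) : T (i + 1) G (LC K) →ₗ[ℚ] T i G (LC K) :=
  (mp i id pL) ∘ₗ (pp (trivR G (LC K)) i)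

/-- From inhomogeneous to homogeneous chains, in both variables. -/
noncomputable def sG (i : ℕ) : T i G (LC K) →ₗ[ℚ] T (i + 1) G (LC K) :=
  (mp (i + 1) id sL) ∘ₗ (sg i)

theorem mp_id_id {n : ℕ} {X M : Type} [AddCommGroup M] [Module ℚ M] (φ : M →ₗ[ℚ] M)
    (hφ : ∀ m, φ m = m) (z : T n X M) : mp n id φ z = z := by
  have e : φ = LinearMap.id := LinearMap.ext hφ
  rw [e]
  exact mp_id n z

theorem mp_coef_pp {M N : Type} [AddCommGroup M] [Module ℚ M] [AddCommGroup N] [Module ℚ N]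
    (i : ℕ) (φ : M →ₗ[ℚ] N) (z : T (i + 1) G M) :
    mp i id φ (pp (trivR G M) i z) = pp (trivR G N) i (mp (i + 1) id φ z) := by
  have h : (mp i id φ) ∘ₗ (pp (trivR G M) i) = (pp (trivR G N) i) ∘ₗ (mp (i + 1) id φ) := by
    apply T_ext
    intro x m
    rw [LinearMap.comp_apply, LinearMap.comp_apply, pp_single, mp_single, mp_single, pp_single,
      Function.id_comp, Function.id_comp]
    rfl
  exact DFunLike.congr_fun h z

theorem mp_coef_sg {M N : Type} [AddCommGroup M] [Module ℚ M] [AddCommGroup N] [Module ℚ N]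
    (i : ℕ) (φ : M →ₗ[ℚ] N) (z : T i G M) :
    mp (i + 1) id φ (sg i z) = sg i (mp i id φ z) := by
  have h : (mp (i + 1) id φ) ∘ₗ (sg i) = (sg i) ∘ₗ (mp (X := G) i id φ) := by
    apply T_ext
    intro x m
    rw [LinearMap.comp_apply, LinearMap.comp_apply, sg_single, mp_single, mp_single, sg_single,
      Function.id_comp, Function.id_comp]
  exact DFunLike.congr_fun h z

theorem mp_coef_dd {M N : Type} [AddCommGroup M] [Module ℚ M] [AddCommGroup N] [Module ℚ N]
    (i : ℕ) (φ : M →ₗ[ℚ] N) (z : T (i + 1) G M) :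
    dd (trivR G N) i (mp (i + 1) id φ z) = mp i id φ (dd (trivR G M) i z) :=
  dd_mp (ρ := trivR G M) (τ := trivR G N) (MonoidHom.id G) φ (fun _ _ => rfl) i z

theorem pG_sG (i : ℕ) (w : T i G (LC K)) : pG i (sG i w) = w := by
  rw [pG, sG, LinearMap.comp_apply, LinearMap.comp_apply, mp_coef_pp, mp_mp, Function.comp_id,
    mp_id_id _ pL_sL, pp_sg]

theorem fac (i : ℕ) (U : T (i + 1) G (LC K) →ₗ[ℚ] V)
    (hG : ∀ g z, U (mp (i + 1) (fun x => g * x) LinearMap.id z) = U z)
    (hK : ∀ (k : K) z, U (mp (i + 1) id (mapL (fun x => k * x)) z) = U z)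
    (h0 : ∀ z, U (mp (i + 1) id (lsingle ([] : List K)) z) = 0) (z : T (i + 1) G (LC K)) :
    U z = U (sG i (pG i z)) := by
  have h1 : U z = U (sg i (pp (trivR G (LC K)) i z)) :=
    factor (trivR G (LC K)) i U (fun g z => hG g z) z
  have h2 : ∀ w : T (i + 1) G (LC K), U (mp (i + 1) id (sL ∘ₗ pL) w) = U w := by
    intro w
    have h : U ∘ₗ (mp (i + 1) id (sL ∘ₗ pL)) = U := by
      apply T_ext
      intro x m
      rw [LinearMap.comp_apply, mp_single]
      have h3 := factorL (U ∘ₗ (lsingle x)) (fun k z => by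
        have h4 := hK k (single x z)
        rw [mp_single] at h4
        exact h4) (fun r => by
        have h4 := h0 (single x r)
        rw [mp_single] at h4
        exact h4) m
      exact h3.symm
    exact DFunLike.congr_fun h w
  rw [h1, ← h2, sG, pG, LinearMap.comp_apply, LinearMap.comp_apply, ← mp_coef_sg, mp_mp]
  rfl

/-- The boundary of the coefficients. -/
noncomputable def cY (i : ℕ) : T i G (LC K) →ₗ[ℚ] T i G (LC K) := mp i id dD

theorem pG_bd (i : ℕ) (W : T (i + 2) G (LC K)) :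
    pG i (bd (i + 1) W) = dd (trivR G (LC K)) i (pG (i + 1) W) := by
  rw [pG, pG, LinearMap.comp_apply, LinearMap.comp_apply, pp_bd, mp_coef_dd]

theorem pG_bY (i : ℕ) (W : T (i + 1) G (LC K)) : pG i (bY (i + 1) W) = cY i (pG i W) := by
  rw [pG, LinearMap.comp_apply, LinearMap.comp_apply, bY, ← mp_coef_pp, mp_mp, cY, mp_mp]
  congr 2
  apply LinearMap.ext
  intro m
  exact (dD_pL m).symm

/-- The Alexander-Whitney map. -/
noncomputable def aw (n i : ℕ) : T n (G × K) ℚ →ₗ[ℚ] T i G (LC K) := (pG i) ∘ₗ (A n i) ∘ₗ (sg n)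

/-- The shuffle map. -/
noncomputable def sh (n i : ℕ) : T i G (LC K) →ₗ[ℚ] T n (G × K) ℚ :=
  (pp (trivR (G × K) ℚ) n) ∘ₗ (NN n (i + 1)) ∘ₗ (sG i)

theorem mul_fst (g : G) : (fun x : G × K => (g, (1 : K)) * x) = Prod.map (fun x => g * x) id := by
  funext x
  exact Prod.ext rfl (one_mul _)

theorem mul_snd (k : K) : (fun x : G × K => ((1 : G), k) * x) = Prod.map id (fun x => k * x) := by
  funext x
  exact Prod.ext (one_mul _) rfl

theorem mapL_id {Y : Type} (z : LC Y) : mapL (id : Y → Y) z = z := by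
  have h : mapL (id : Y → Y) = LinearMap.id := by
    apply lhom_ext
    intro l r
    rw [mapL_single, List.map_id]
    rfl
  exact DFunLike.congr_fun h z

theorem mapL_id' {Y : Type} : (mapL (id : Y → Y)) = LinearMap.id := LinearMap.ext mapL_id

theorem sh_fac (n i : ℕ) (W : T (i + 1) G (LC K)) :
    pp (trivR (G × K) ℚ) n (NN n (i + 1) W) = sh n i (pG i W) := by
  have h := fac i ((pp (trivR (G × K) ℚ) n) ∘ₗ (NN n (i + 1))) (fun g z => by
    rw [LinearMap.comp_apply, LinearMap.comp_apply, ← mapL_id', NN_mp, ← mul_fst]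
    exact pp_tr (trivR (G × K) ℚ) n (g, 1) _) (fun k z => by
    rw [LinearMap.comp_apply, LinearMap.comp_apply, NN_mp, ← mul_snd]
    exact pp_tr (trivR (G × K) ℚ) n (1, k) _) (fun z => by
    rw [LinearMap.comp_apply, NN_nil, map_zero]) W
  exact h

theorem dd_sh_zero (n : ℕ) (w : T 0 G (LC K)) :
    dd (trivR (G × K) ℚ) n (sh (n + 1) 0 w) = sh n 0 (cY 0 w) := by
  rw [sh, LinearMap.comp_apply, LinearMap.comp_apply, ← pp_bd, bd_NN, NN_zero, LinearMap.zero_apply,
    zero_add, pow_zero, one_smul, sh_fac, pG_bY, pG_sG]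

theorem dd_sh_succ (n i : ℕ) (w : T (i + 1) G (LC K)) :
    dd (trivR (G × K) ℚ) n (sh (n + 1) (i + 1) w) =
      sh n i (dd (trivR G (LC K)) i w) + ((-1 : ℚ) ^ (i + 1)) • sh n (i + 1) (cY (i + 1) w) := by
  rw [sh, LinearMap.comp_apply, LinearMap.comp_apply, ← pp_bd, bd_NN, map_add, map_smul, sh_fac,
    sh_fac, pG_bY, pG_bd, pG_sG]

theorem A_fac (n i : ℕ) (z : T (n + 1) (G × K) ℚ) :
    pG i (A n i z) = aw n i (pp (trivR (G × K) ℚ) n z) := by
  have h := factor (trivR (G × K) ℚ) n ((pG i) ∘ₗ (A n i)) (fun g z => by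
    have e : tr (trivR (G × K) ℚ) (n + 1) g z =
        mp (n + 1) (Prod.map (fun x => g.1 * x) (fun x => g.2 * x)) LinearMap.id z := rfl
    rw [LinearMap.comp_apply, LinearMap.comp_apply, e, A_mp, pG, LinearMap.comp_apply,
      LinearMap.comp_apply]
    have e2 : mp (i + 1) (fun x => g.1 * x) (mapL (fun x => g.2 * x)) (A n i z) =
        tr (trivR G (LC K)) (i + 1) g.1 (mp (i + 1) id (mapL (fun x => g.2 * x)) (A n i z)) := by
      rw [tr, mp_mp]
      rfl
    rw [e2, pp_tr, ← mp_coef_pp, mp_mp]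
    congr 2
    apply LinearMap.ext
    intro m
    exact pL_tr g.2 m) z
  exact h

/-- The boundary of chains with coefficients in lists with one element vanishes. -/
theorem pL_bY_A (n : ℕ) (z : T (n + 1) (G × K) ℚ) :
    mp (n + 1) id pL (bY (n + 1) (A n n z)) = 0 := by
  induction n with
  | zero =>
    have h : (mp 1 id pL) ∘ₗ (bY 1) ∘ₗ (A 0 0) = (0 : T 1 (G × K) ℚ →ₗ[ℚ] T 1 G (LC K)) := by
      apply T_ext
      intro x r
      rw [LinearMap.comp_apply, LinearMap.comp_apply, single_eq_cone, A_zero, bY_cone, bY_c0,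
        bdL_cons, mp_cone]
      have e : lst 0 (mp 0 Prod.snd LinearMap.id (single (Fin.tail x) r)) =
        (single ([] : List K) r : LC K) := by simp
      rw [e, bdL_nil, map_zero, sub_zero, c0, lsingle_apply, mp_single, pL_nil, single_zero,
        map_zero]
      rfl
    exact DFunLike.congr_fun h z
  | succ n ih =>
    have h : (mp (n + 2) id pL) ∘ₗ (bY (n + 2)) ∘ₗ (A (n + 1) (n + 1)) =
        (0 : T (n + 2) (G × K) ℚ →ₗ[ℚ] T (n + 2) G (LC K)) := by
      apply T_ext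
      intro x r
      rw [LinearMap.comp_apply, LinearMap.comp_apply, single_eq_cone, A_succ, bY_cone, mp_cone, ih,
        map_zero]
      rfl
    exact DFunLike.congr_fun h z

theorem A_big (n : ℕ) : ∀ i, n < i → (A n i : T (n + 1) (G × K) ℚ →ₗ[ℚ] _) = 0 := by
  induction n with
  | zero =>
    intro i hi
    obtain ⟨j, rfl⟩ : ∃ j, i = j + 1 := ⟨i - 1, by omega⟩
    rfl
  | succ n ih =>
    intro i hi
    obtain ⟨j, rfl⟩ : ∃ j, i = j + 1 := ⟨i - 1, by omega⟩
    apply T_ext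
    intro x r
    rw [single_eq_cone, A_succ, ih j (by omega)]
    simp

theorem aw_big (n i : ℕ) (h : n < i) (z : T n (G × K) ℚ) : aw n i z = 0 := by
  rw [aw, LinearMap.comp_apply, LinearMap.comp_apply, A_big n i h]
  simp

theorem cY_aw (n : ℕ) (z : T n (G × K) ℚ) : cY n (aw n n z) = 0 := by
  rw [aw, LinearMap.comp_apply, LinearMap.comp_apply, ← pG_bY, pG, LinearMap.comp_apply,
    mp_coef_pp, pL_bY_A, map_zero]

theorem aw_dd (n i : ℕ) (hi : i ≤ n) (z : T (n + 1) (G × K) ℚ) :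
    aw n i (dd (trivR (G × K) ℚ) n z) = dd (trivR G (LC K)) i (aw (n + 1) (i + 1) z) +
      ((-1 : ℚ) ^ i) • cY i (aw (n + 1) i z) := by
  have h1 : dd (trivR (G × K) ℚ) n z = pp (trivR (G × K) ℚ) n (bd (n + 1) (sg (n + 1) z)) := by
    rw [pp_bd, pp_sg]
  rw [h1, ← A_fac, A_bd n i hi, map_add, map_smul, pG_bd, pG_bY]
  rfl

/-- The relations for a cycle. -/
theorem aw_cyc (n : ℕ) (z : T n (G × K) ℚ) (hz : Cyc (trivR (G × K) ℚ) n z) (i : ℕ) :
    dd (trivR G (LC K)) i (aw n (i + 1) z) + ((-1 : ℚ) ^ i) • cY i (aw n i z) = 0 := by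
  rcases lt_trichotomy i n with h | h | h
  · obtain ⟨m, rfl⟩ : ∃ m, n = m + 1 := ⟨n - 1, by omega⟩
    rw [cyc_succ] at hz
    rw [← aw_dd m i (by omega), hz, map_zero]
  · subst h
    rw [cY_aw, aw_big i (i + 1) (by omega), map_zero, smul_zero, add_zero]
  · rw [aw_big n i h, aw_big n (i + 1) (by omega), map_zero, map_zero, smul_zero, add_zero]

/-- A cycle is homologous to the image under the composition. -/
theorem cyc_sh_aw (n : ℕ) (z : T n (G × K) ℚ) (hz : Cyc (trivR (G × K) ℚ) n z) :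
    z - ∑ i ∈ Finset.range (n + 1), sh n i (aw n i z) ∈
      LinearMap.range (dd (trivR (G × K) ℚ) n) := by
  let U : ∀ n, T n (G × K) ℚ →ₗ[ℚ] T n (G × K) ℚ := fun n => match n with
    | 0 => 0
    | n + 1 => Th0 n
  have h := descend (trivR (G × K) ℚ) (trivR (G × K) ℚ) U (fun _ => LinearMap.id) (fun n => hh n)
    rfl (fun n z => bd_hh n z) (fun n g z => by
      have e : tr (trivR (G × K) ℚ) (n + 1) g z =
        mp (n + 1) (Prod.map (fun x => g.1 * x) (fun x => g.2 * x)) LinearMap.id z := rfl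
      rw [e, hh_mp]
      exact pp_tr (trivR (G × K) ℚ) (n + 1) g _) n z hz
  refine ⟨_, h.trans ?_⟩
  rw [LinearMap.id_apply, pp_sg]
  congr 1
  change pp (trivR (G × K) ℚ) n (Th0 n (sg n z)) = _
  rw [Th0_apply, map_sum]
  apply Finset.sum_congr rfl
  intro i _
  rw [sh_fac, A_fac, pp_sg]

end Inh

end Pool.Agent.V11189.KU
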