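import Pool.Agent.Y483.Homotopy

/-!
Chains on lists: the cone, the boundary, and the passage from homogeneous to inhomogeneous chains.
-/

namespace Pool.Agent.V11189.KU

open Finsupp Pool.Agent.Y483

section Lists

variable {Y Y' : Type}

/-- Chains on lists. -/
abbrev LC (Y : Type) : Type := List Y →₀ ℚ

/-- The cone. -/
noncomputable def consL (a : Y) : LC Y →ₗ[ℚ] LC Y := lsum ℚ fun l => lsingle (a :: l)

@[simp] theorem consL_single (a : Y) (l : List Y) (r : ℚ) :
    consL a (single l r) = single (a :: l) r := by
  simp [consL]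

/-- The faces of a list. -/
noncomputable def fc : List Y → LC Y
  | [] => 0
  | a :: l => single l 1 - consL a (fc l)

/-- The boundary. -/
noncomputable def bdL : LC Y →ₗ[ℚ] LC Y := lsum ℚ fun l => LinearMap.toSpanSingleton ℚ _ (fc l)

theorem bdL_single (l : List Y) (r : ℚ) : bdL (single l r) = r • fc l := by
  simp [bdL]

theorem bdL_nil (r : ℚ) : bdL (single ([] : List Y) r) = 0 := by
  rw [bdL_single, fc, smul_zero]

theorem bdL_cons (a : Y) (z : LC Y) : bdL (consL a z) = z - consL a (bdL z) := by
  have h : bdL ∘ₗ (consL a) = LinearMap.id - (consL a) ∘ₗ bdL := by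
    apply lhom_ext
    intro l r
    rw [LinearMap.comp_apply, consL_single, bdL_single, fc, LinearMap.sub_apply,
      LinearMap.comp_apply, bdL_single, smul_sub, map_smul, LinearMap.id_apply, smul_single,
      smul_eq_mul, mul_one]
  exact DFunLike.congr_fun h z

theorem bdL_bdL (z : LC Y) : bdL (bdL z) = 0 := by
  have h : (bdL : LC Y →ₗ[ℚ] LC Y) ∘ₗ bdL = 0 := by
    apply lhom_ext
    intro l r
    rw [LinearMap.comp_apply, LinearMap.zero_apply]
    induction l with
    | nil => rw [bdL_nil, map_zero]
    | cons a l ih =>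
      rw [← consL_single, bdL_cons, map_sub, bdL_cons, ih, map_zero]
      simp
  exact DFunLike.congr_fun h z

/-- The map of chains induced by a map of sets. -/
noncomputable def mapL (g : Y → Y') : LC Y →ₗ[ℚ] LC Y' := lsum ℚ fun l => lsingle (l.map g)

@[simp] theorem mapL_single (g : Y → Y') (l : List Y) (r : ℚ) :
    mapL g (single l r) = single (l.map g) r := by
  simp [mapL]

theorem mapL_cons (g : Y → Y') (a : Y) (z : LC Y) :
    mapL g (consL a z) = consL (g a) (mapL g z) := by
  have h : (mapL g) ∘ₗ (consL a) = (consL (g a)) ∘ₗ (mapL g) := by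
    apply lhom_ext
    intro l r
    simp
  exact DFunLike.congr_fun h z

theorem bdL_mapL (g : Y → Y') (z : LC Y) : bdL (mapL g z) = mapL g (bdL z) := by
  have h : bdL ∘ₗ (mapL g) = (mapL g) ∘ₗ bdL := by
    apply lhom_ext
    intro l r
    rw [LinearMap.comp_apply, LinearMap.comp_apply]
    induction l with
    | nil => rw [mapL_single, List.map_nil, bdL_nil, bdL_nil, map_zero]
    | cons a l ih =>
      rw [← consL_single, mapL_cons, bdL_cons, bdL_cons, map_sub, mapL_cons, ih]
  exact DFunLike.congr_fun h z

/-- The list of a tuple. -/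
noncomputable def lst (n : ℕ) : T n Y ℚ →ₗ[ℚ] LC Y := lsum ℚ fun x => lsingle (List.ofFn x)

@[simp] theorem lst_single (n : ℕ) (x : Fin n → Y) (r : ℚ) :
    lst n (single x r) = single (List.ofFn x) r := by
  simp [lst]

theorem lst_cone (n : ℕ) (a : Y) (z : T n Y ℚ) : lst (n + 1) (cone n a z) = consL a (lst n z) := by
  have h : (lst (n + 1)) ∘ₗ (cone n a) = (consL a) ∘ₗ (lst n) := by
    apply T_ext
    intro x r
    simp [List.ofFn_succ]
  exact DFunLike.congr_fun h z

theorem lst_bd (n : ℕ) (z : T (n + 1) Y ℚ) : lst n (bd n z) = bdL (lst (n + 1) z) := by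
  induction n with
  | zero =>
    have h : (lst 0) ∘ₗ (bd 0) = bdL ∘ₗ (lst (Y := Y) 1) := by
      apply T_ext
      intro x r
      rw [LinearMap.comp_apply, LinearMap.comp_apply, single_eq_cone, bd_cone_zero, lst_cone,
        bdL_cons]
      have e : lst 0 (single (Fin.tail x) r) = single ([] : List Y) r := by simp
      rw [e, bdL_nil, map_zero, sub_zero]
    exact DFunLike.congr_fun h z
  | succ n ih =>
    have h : (lst (n + 1)) ∘ₗ (bd (n + 1)) = bdL ∘ₗ (lst (Y := Y) (n + 2)) := by
      apply T_ext
      intro x r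
      rw [LinearMap.comp_apply, LinearMap.comp_apply, single_eq_cone, bd_cone_succ, map_sub,
        lst_cone, lst_cone, bdL_cons, ih]
    exact DFunLike.congr_fun h z

theorem lst_mp (n : ℕ) (g : Y → Y') (z : T n Y ℚ) :
    lst n (mp n g LinearMap.id z) = mapL g (lst n z) := by
  have h : (lst n) ∘ₗ (mp n g LinearMap.id) = (mapL g) ∘ₗ (lst n) := by
    apply T_ext
    intro x r
    rw [LinearMap.comp_apply, LinearMap.comp_apply, mp_single, lst_single, lst_single, mapL_single,
      List.map_ofFn]
    rfl
  exact DFunLike.congr_fun h z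

end Lists

section Group

variable {K : Type} [Group K] {V : Type} [AddCommGroup V] [Module ℚ V]

/-- The quotients of consecutive elements. -/
def df : K → List K → List K
  | _, [] => []
  | a, b :: l => (a⁻¹ * b) :: df b l

/-- The partial products. -/
def pr : K → List K → List K
  | _, [] => []
  | a, b :: l => (a * b) :: pr (a * b) l

theorem df_pr (a : K) (l : List K) : df a (pr a l) = l := by
  induction l generalizing a with
  | nil => rfl
  | cons b l ih =>
    change (a⁻¹ * (a * b)) :: df (a * b) (pr (a * b) l) = b :: l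
    rw [ih, inv_mul_cancel_left]

theorem pr_df (a : K) (l : List K) : pr a (df a l) = l := by
  induction l generalizing a with
  | nil => rfl
  | cons b l ih =>
    change (a * (a⁻¹ * b)) :: pr (a * (a⁻¹ * b)) (df b l) = b :: l
    rw [mul_inv_cancel_left, ih]

theorem df_map (k a : K) (l : List K) : df (k * a) (l.map (fun x => k * x)) = df a l := by
  induction l generalizing a with
  | nil => rfl
  | cons b l ih =>
    change ((k * a)⁻¹ * (k * b)) :: df (k * b) (l.map (fun x => k * x)) = (a⁻¹ * b) :: df b l
    rw [ih]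
    congr 1
    group

theorem pr_map (k a : K) (l : List K) : (pr a l).map (fun x => k * x) = pr (k * a) l := by
  induction l generalizing a with
  | nil => rfl
  | cons b l ih =>
    change (k * (a * b)) :: (pr (a * b) l).map (fun x => k * x) = (k * a * b) :: pr (k * a * b) l
    rw [ih, mul_assoc]

/-- The inhomogeneous form of a list. -/
def dfl : List K → List K
  | [] => []
  | a :: l => df a l

open Classical in
/-- From homogeneous to inhomogeneous chains. -/
noncomputable def pL : LC K →ₗ[ℚ] LC K := lsum ℚ fun l =>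
  if l = [] then 0 else lsingle (dfl l)

theorem pL_nil (r : ℚ) : pL (single ([] : List K) r) = 0 := by
  simp [pL]

theorem pL_cons (a : K) (l : List K) (r : ℚ) : pL (single (a :: l) r) = single (df a l) r := by
  simp [pL, dfl]

/-- From inhomogeneous to homogeneous chains. -/
noncomputable def sL : LC K →ₗ[ℚ] LC K := lsum ℚ fun l => lsingle (1 :: pr 1 l)

@[simp] theorem sL_single (l : List K) (r : ℚ) : sL (single l r) = single (1 :: pr 1 l) r := by
  simp [sL]

theorem pL_sL (z : LC K) : pL (sL z) = z := by
  have h : (pL : LC K →ₗ[ℚ] LC K) ∘ₗ sL = LinearMap.id := by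
    apply lhom_ext
    intro l r
    rw [LinearMap.comp_apply, sL_single, pL_cons, df_pr]
    rfl
  exact DFunLike.congr_fun h z

theorem pL_tr (k : K) (z : LC K) : pL (mapL (fun x => k * x) z) = pL z := by
  have h : pL ∘ₗ (mapL (fun x => k * x)) = (pL : LC K →ₗ[ℚ] LC K) := by
    apply lhom_ext
    intro l r
    rw [LinearMap.comp_apply, mapL_single]
    cases l with
    | nil => rfl
    | cons a l => rw [List.map_cons, pL_cons, pL_cons, df_map]
  exact DFunLike.congr_fun h z

/-- An invariant operator factors through inhomogeneous chains. -/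
theorem factorL (U : LC K →ₗ[ℚ] V) (hU : ∀ k z, U (mapL (fun x => k * x) z) = U z)
    (h0 : ∀ r, U (single [] r) = 0) (z : LC K) : U z = U (sL (pL z)) := by
  have h : U = U ∘ₗ sL ∘ₗ pL := by
    apply lhom_ext
    intro l r
    rw [LinearMap.comp_apply, LinearMap.comp_apply]
    cases l with
    | nil => rw [h0, pL_nil, map_zero, map_zero]
    | cons a l =>
      rw [pL_cons, sL_single]
      conv_rhs => rw [← hU a, mapL_single, List.map_cons, mul_one, pr_map, mul_one, pr_df]
  exact DFunLike.congr_fun h z

/-- The boundary of inhomogeneous chains. -/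
noncomputable def dD : LC K →ₗ[ℚ] LC K := pL ∘ₗ bdL ∘ₗ sL

theorem dD_pL (z : LC K) : dD (pL z) = pL (bdL z) := by
  have h := factorL (pL ∘ₗ (bdL : LC K →ₗ[ℚ] LC K)) (fun k z => by
    rw [LinearMap.comp_apply, LinearMap.comp_apply, bdL_mapL, pL_tr]) (fun r => by
    rw [LinearMap.comp_apply, bdL_nil, map_zero]) z
  exact h.symm

theorem dD_dD (z : LC K) : dD (dD z) = 0 := by
  change dD (pL (bdL (sL z))) = 0
  rw [dD_pL, bdL_bdL, map_zero]

end Group

end Pool.Agent.V11189.KU
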