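import Pool.Agent.V11189.KU.Det

/-!
A Künneth-type lemma: a property of homology classes of positive degree, with respect to two
homomorphisms, passes to the products with an arbitrary group.
-/

namespace Pool.Agent.V11189.KU

open Finsupp Pool.Agent.Y483

section Main

variable {G W Γ K : Type} [Group G] [Group W] [Group Γ] [Group K]

/-- The map `(g, k) ↦ (1, k)`. -/
noncomputable def cut (G K : Type) [Group G] [Group K] : G × K →* G × K :=
  (1 : G →* G).prodMap (MonoidHom.id K)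

/-- A homomorphism to `W` from `G` is compared with a homomorphism from `Γ`: classes of `G` of
positive degree which come from `Γ` in `W` vanish. -/
def Sep (φ : G →* W) (ψ : Γ →* W) : Prop :=
  ∀ (i : ℕ) (x : T (i + 1) G ℚ), dd (trivR G ℚ) i x = 0 → ∀ y : T (i + 1) Γ ℚ,
    mp (i + 1) φ LinearMap.id x - mp (i + 1) ψ LinearMap.id y ∈
      LinearMap.range (dd (trivR W ℚ) (i + 1)) → x ∈ LinearMap.range (dd (trivR G ℚ) (i + 1))

theorem mp_const_range (i : ℕ) (f : G →* W) (z : T i G ℚ)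
    (hz : z ∈ LinearMap.range (dd (trivR G ℚ) i)) :
    mp i f LinearMap.id z ∈ LinearMap.range (dd (trivR W ℚ) i) :=
  range_mp (ρ := trivR G ℚ) (τ := trivR W ℚ) f LinearMap.id (fun _ _ => rfl) i z hz

theorem chain_ku {φ : G →* W} {ψ : Γ →* W} (hH : Sep φ ψ) (n : ℕ) (z : T n (G × K) ℚ)
    (hz : Cyc (trivR (G × K) ℚ) n z) (z' : T n (Γ × K) ℚ)
    (h : mp n (φ.prodMap (MonoidHom.id K)) LinearMap.id z -
      mp n (ψ.prodMap (MonoidHom.id K)) LinearMap.id z' ∈
        LinearMap.range (dd (trivR (W × K) ℚ) n)) :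
    z - mp n (cut G K) LinearMap.id z ∈ LinearMap.range (dd (trivR (G × K) ℚ) n) := by
  -- the slant products are boundaries
  have hS : ∀ θ : LC K →ₗ[ℚ] ℚ, (∀ m, θ (dD m) = 0) → ∀ j,
      mp (j + 1) id θ (aw n (j + 1) z) ∈ LinearMap.range (dd (trivR G ℚ) (j + 1)) := by
    intro θ hθ j
    by_cases hj : j + 1 ≤ n
    · obtain ⟨m, rfl⟩ : ∃ m, n = m + 1 := ⟨n - 1, by omega⟩
      rw [cyc_succ] at hz
      apply hH j _ _ (mp (j + 1) id θ (aw (m + 1) (j + 1) z'))
      · obtain ⟨v, hv⟩ := h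
        refine ⟨mp (j + 2) id θ (aw (m + 2) (j + 2) v), ?_⟩
        rw [← slant_dd θ hθ (m + 1) (j + 1) hj v, hv, map_sub, map_sub, aw_map, aw_map, mp_mp,
          mp_mp, mp_mp, mp_mp]
        rfl
      · rw [← slant_dd θ hθ m j (by omega) z, hz, map_zero, map_zero]
    · rw [aw_big n (j + 1) (by omega), map_zero]
      exact Submodule.zero_mem _
  obtain ⟨ι, s, f, e, h1, h2, h3⟩ := exists_split (dD : LC K →ₗ[ℚ] LC K) dD_dD
  have d1 := detect_aux n s f e h1 h2 h3 z hz hS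
  have hz2 : Cyc (trivR (G × K) ℚ) n (mp n (cut G K) LinearMap.id z) :=
    cyc_mp (ρ := trivR (G × K) ℚ) (τ := trivR (G × K) ℚ) (cut G K) LinearMap.id
      (fun _ _ => rfl) n z hz
  have d2 := detect_aux n s f e h1 h2 h3 (mp n (cut G K) LinearMap.id z) hz2 (by
    intro θ hθ j
    rw [cut, aw_map, mp_mp]
    have e1 : mp (j + 1) (id ∘ (1 : G →* G)) (θ ∘ₗ LinearMap.id) (aw n (j + 1) z) =
        mp (j + 1) (1 : G →* G) LinearMap.id (mp (j + 1) id θ (aw n (j + 1) z)) := by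
      rw [mp_mp]
      rfl
    rw [e1]
    exact mp_const_range (j + 1) (1 : G →* G) _ (hS θ hθ j))
  rw [cut, aw_map, mp_zero_eq] at d2
  have d3 := Submodule.sub_mem _ d1 d2
  rw [sub_sub_sub_cancel_right] at d3
  exact d3

/-- **The Künneth-type lemma.** -/
theorem ku {φ : G →* W} {ψ : Γ →* W} (hH : Sep φ ψ) (n : ℕ) (x : HQ n (G × K))
    (y : HQ n (Γ × K)) (h : hqMap (φ.prodMap (MonoidHom.id K)) n x =
      hqMap (ψ.prodMap (MonoidHom.id K)) n y) : x = hqMap (cut G K) n x := by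
  obtain ⟨z, hz⟩ := exists_rpr (Rep.trivial ℚ (G × K) ℚ) n x
  obtain ⟨w, hw⟩ := exists_rpr (Rep.trivial ℚ (Γ × K) ℚ) n y
  have h2 : hqMap (φ.prodMap (MonoidHom.id K)) n x -
      hqMap (ψ.prodMap (MonoidHom.id K)) n y = 0 := by rw [h, sub_self]
  have h3 := (hz.hq (φ.prodMap (MonoidHom.id K))).sub (hw.hq (ψ.prodMap (MonoidHom.id K)))
  rw [h3.eq_zero_iff] at h2
  have h4 := chain_ku hH n z hz.cyc w h2
  have h5 := hz.sub (hz.hq (cut G K))
  exact sub_eq_zero.mp (h5.eq_zero_iff.mpr h4)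

end Main

end Pool.Agent.V11189.KU
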