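import Pool.Agent.V11189.KU.Rel

/-!
The groups `π / [R, R]`, relative to a second factor.
-/

namespace Pool.Agent.V11189.KU

open Finsupp Pool.Agent.Y483 Pool.Agent.Y110.KW Pool.Agent.Y75.MQ CategoryTheory DirectSum Pointwise
open Pool.Agent.V11187.MG

variable {B : Type} (d : B → ℕ) {F : GrpCat.{0} ⥤ ModuleCat.{0} ℚ} (α : ∀ b : B, hq (d b) ⟶ F)

/-- A class is fixed by every endomorphism which fixes the elements of some finite set. -/
theorem exists_fix {K : Type} [Group K] (j : ℕ) (x : HQ j K) :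
    ∃ S : Finset K, ∀ f : K →* K, (∀ k ∈ S, f k = k) → hqMap f j x = x := by
  classical
  obtain ⟨z, hz⟩ := exists_rpr (Rep.trivial ℚ K ℚ) j x
  refine ⟨z.support.biUnion fun w => Finset.univ.image w, ?_⟩
  intro f hf
  have h1 := (hz.hq f).sub hz
  rw [← sub_eq_zero, h1.eq_zero_iff, mp_eq_self, sub_self]
  · exact Submodule.zero_mem _
  · intro w hw i
    apply hf
    rw [Finset.mem_biUnion]
    exact ⟨w, hw, Finset.mem_image_of_mem w (Finset.mem_univ i)⟩

/-- Free abelian groups of arbitrary rank. -/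
theorem relP_HH (I : Type) : RelP d α (HH I) := by
  classical
  let e : ∀ E₀ : Finset I, Fin E₀.card ≃ E₀ := fun E₀ => E₀.equivFin.symm
  let a : ∀ E₀ : Finset I, HH I →* Zn E₀.card := fun E₀ =>
    { toFun := fun k => Multiplicative.ofAdd (fun i => k.toAdd (e E₀ i))
      map_one' := rfl
      map_mul' := fun _ _ => rfl }
  let b : ∀ E₀ : Finset I, Zn E₀.card →* HH I := fun E₀ =>
    { toFun := fun k => Multiplicative.ofAdd (∑ i, single (e E₀ i : I) (k.toAdd i))
      map_one' := by
        apply congrArg Multiplicative.ofAdd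
        apply Finset.sum_eq_zero
        intro i _
        exact Finsupp.single_zero _
      map_mul' := fun k k' => by
        apply congrArg Multiplicative.ofAdd
        change ∑ i, single (e E₀ i : I) (k.toAdd i + k'.toAdd i) =
          ∑ i, single (e E₀ i : I) (k.toAdd i) + ∑ i, single (e E₀ i : I) (k'.toAdd i)
        rw [← Finset.sum_add_distrib]
        apply Finset.sum_congr rfl
        intro i _
        exact Finsupp.single_add _ _ _ }
  apply relP_detect d α (H := fun E₀ : Finset I => Zn E₀.card) a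
  · intro j x h
    obtain ⟨S, hS⟩ := exists_fix j x
    let E₀ : Finset I := S.biUnion fun k => k.toAdd.support
    have hfix : ∀ k ∈ S, ((b E₀).comp (a E₀)) k = k := by
      intro k hk
      apply congrArg Multiplicative.ofAdd
      change ∑ i, single (e E₀ i : I) (k.toAdd (e E₀ i)) = k.toAdd
      rw [Equiv.sum_comp (e E₀) (fun x : E₀ => single (x : I) (k.toAdd x)),
        Finset.sum_coe_sort E₀ (fun x => single x (k.toAdd x))]
      have h1 : k.toAdd.support ⊆ E₀ := Finset.subset_biUnion_of_mem _ hk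
      conv_rhs => rw [← Finsupp.sum_single k.toAdd]
      rw [Finsupp.sum]
      symm
      apply Finset.sum_subset h1
      intro e' _ he'
      rw [Finsupp.notMem_support_iff.mp he', Finsupp.single_zero]
    rw [← hS _ hfix, hqMap_comp, h E₀, map_zero]
  · intro E₀ K _ hK
    exact hK E₀.card

section Edge

variable {Γ E : Type} [Group Γ] [MulAction Γ E]

theorem relP_rangeE (S : Set E) : RelP d α ((sysE Γ E).e S).range := by
  apply relP_retract d α ((sysE Γ E).e S).range.subtype ((sysE Γ E).e S).rangeRestrict _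
    (relP_HH d α E)
  rintro ⟨k, p, rfl⟩
  apply Subtype.ext
  change (sysE Γ E).e S ((sysE Γ E).e S p) = _
  rw [(sysE Γ E).inter, Set.inter_self]

/-- The parts with nonempty support. -/
theorem relP_supG (hE : PW.HasPT F)
    (hfin : ∀ e : E, (MulAction.stabilizer Γ e : Set Γ).Finite) (σ : Finset E) (hσ : σ.Nonempty) :
    RelP d α ((sysE Γ E).supG σ) := by
  obtain ⟨e₀, he₀⟩ := hσ
  -- the finite group of the elements which fix the edges of the support
  let Φ : Subgroup Γ := fixingSubgroup Γ (σ : Set E)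
  have hΦ : Finite Φ := by
    apply Set.Finite.subset (hfin e₀)
    intro g hg
    rw [SetLike.mem_coe, mem_fixingSubgroup_iff] at hg
    exact hg e₀ he₀
  let pr : (sysE Γ E).supG σ →* Φ :=
    { toFun := fun w => ⟨w.1.right, by
        rw [mem_fixingSubgroup_iff]
        exact w.2.2⟩
      map_one' := rfl
      map_mul' := fun _ _ => rfl }
  have hfi : pr.ker.FiniteIndex := inferInstance
  apply relP_index d α hE pr.ker
  have hk : ∀ w : pr.ker, w.1.1.right = 1 := fun w => congrArg Subtype.val w.2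
  refine relP_retract d α (H := ((sysE Γ E).e (σ : Set E)).range)
    { toFun := fun w => ⟨w.1.1.left, w.1.1.left, w.1.2.1⟩
      map_one' := rfl
      map_mul' := fun w w' => by
        apply Subtype.ext
        change w.1.1.left * (sysE Γ E).φ w.1.1.right w'.1.1.left = w.1.1.left * w'.1.1.left
        rw [hk w, map_one]
        rfl }
    { toFun := fun p => ⟨⟨⟨p.1, 1⟩, by
        obtain ⟨k, p, rfl⟩ := p
        change (sysE Γ E).e σ ((sysE Γ E).e σ p) = _
        rw [(sysE Γ E).inter, Set.inter_self], fun e _ => one_smul Γ e⟩, rfl⟩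
      map_one' := rfl
      map_mul' := fun p p' => by
        apply Subtype.ext
        apply Subtype.ext
        apply SemidirectProduct.ext
        · change p.1 * p'.1 = p.1 * (sysE Γ E).φ 1 p'.1
          rw [map_one]; rfl
        · change (1 : Γ) = 1 * 1
          rw [one_mul] } ?_ (relP_rangeE d α _)
  intro w
  apply Subtype.ext
  apply Subtype.ext
  apply SemidirectProduct.ext
  · rfl
  · exact (hk w).symm

end Edge

section Semi

variable {Γ N V : Type} [Group Γ] [Group N] [MulAction Γ V]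

/-- The kernel formula, relative to a second factor. -/
theorem semi_le (hE : PW.HasPT F) (s : PW.Sys Γ N V) (K : Type) [Group K]
    (M : Submodule ℚ (HB d ((N ⋊[s.φ] Γ) × K)))
    (h : ∀ σ : s.Cl, (LinearMap.ker (tb d α (s.supG σ.1 × K))).map
      (hbMap d ((s.supG σ.1).subtype.prodMap (MonoidHom.id K))) ≤ M) :
    LinearMap.ker (tb d α ((N ⋊[s.φ] Γ) × K)) ≤ M := by
  let _ := fstAct Γ K V
  have h1 := PW.sys_gen hE α (sysK s K)
  have h0 : LinearMap.ker (tb d α (N ⋊[(sysK s K).φ] (Γ × K))) = ⨆ σ : (sysK s K).Cl,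
      (LinearMap.ker (tb d α ((sysK s K).supG σ.1))).map
        (hbMap d ((sysK s K).supG σ.1).subtype) := h1
  let q : (N ⋊[s.φ] Γ) × K →* N ⋊[(sysK s K).φ] (Γ × K) :=
    { toFun := fun x => ⟨x.1.left, (x.1.right, x.2)⟩
      map_one' := rfl
      map_mul' := fun _ _ => rfl }
  let r : N ⋊[(sysK s K).φ] (Γ × K) →* (N ⋊[s.φ] Γ) × K :=
    { toFun := fun x => (⟨x.left, x.right.1⟩, x.right.2)
      map_one' := rfl
      map_mul' := fun _ _ => rfl }
  have h2 : LinearMap.ker (tb d α (N ⋊[(sysK s K).φ] (Γ × K))) ≤ M.comap (hbMap d r) := by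
    rw [h0]
    apply iSup_le
    rintro σ _ ⟨y, hy, rfl⟩
    apply h ⟨σ.1, σ.2⟩
    let t : (sysK s K).supG σ.1 →* s.supG σ.1 × K :=
      { toFun := fun x => (⟨⟨x.1.left, x.1.right.1⟩, x.2⟩, x.1.right.2)
        map_one' := rfl
        map_mul' := fun _ _ => rfl }
    refine ⟨hbMap d t y, tb_map d α t hy, ?_⟩
    rw [← hbMap_comp, ← hbMap_comp]
    rfl
  intro x hx
  have h3 : hbMap d r (hbMap d q x) ∈ M := h2 (tb_map d α q hx)
  rw [← hbMap_comp] at h3
  have e : r.comp q = MonoidHom.id _ := rfl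
  rwa [e, hbMap_id] at h3

end Semi

section Main

variable {Γ V E : Type} [Group Γ] [MulAction Γ V] [MulAction Γ E] {Q : Edges V E} {v₀ : V}
  {G : Type} [Group G]

/-- The kernel for the semidirect product comes from `Γ`. -/
theorem rel_WEE (hE : PW.HasPT F)
    (hfin : ∀ e : E, (MulAction.stabilizer Γ e : Set Γ).Finite) (K : Type) [Group K]
    (hK : ∀ n, LinearMap.ker (tb d α (Zn n × K)) = ⊥) :
    LinearMap.ker (tb d α (WE Γ E × K)) ≤
      (LinearMap.ker (tb d α (Γ × K))).map
        (hbMap d ((SemidirectProduct.inr : Γ →* WE Γ E).prodMap (MonoidHom.id K))) := by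
  apply semi_le d α hE (sysE Γ E) K
  intro σ
  by_cases hσ : σ.1.Nonempty
  · rw [relP_supG d α hE hfin σ.1 hσ K hK, Submodule.map_bot]
    exact bot_le
  · have hσ0 : σ.1 = ∅ := Finset.not_nonempty_iff_eq_empty.mp hσ
    rintro _ ⟨x, hx, rfl⟩
    let pr : (sysE Γ E).supG σ.1 →* Γ :=
      (SemidirectProduct.rightHom : WE Γ E →* Γ).comp ((sysE Γ E).supG σ.1).subtype
    refine ⟨hbMap d (pr.prodMap (MonoidHom.id K)) x, tb_map d α _ hx, ?_⟩
    rw [← hbMap_comp]
    have e : ((SemidirectProduct.inr : Γ →* WE Γ E).prodMap (MonoidHom.id K)).comp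
        (pr.prodMap (MonoidHom.id K)) =
        ((sysE Γ E).supG σ.1).subtype.prodMap (MonoidHom.id K) := by
      ext1 w
      apply Prod.ext
      · apply SemidirectProduct.ext
        · have h1 : (sysE Γ E).e (σ.1 : Set E) w.1.1.left = w.1.1.left := w.1.2.1
          change (1 : HH E) = w.1.1.left
          apply Multiplicative.toAdd.injective
          ext e
          change (0 : ℤ) = _
          rw [sysE_fix h1]
          rw [hσ0, Finset.coe_empty]
          exact Set.notMem_empty e
        · rfl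
      · rfl
    rw [e]
    rfl

/-- **The groups of the pairs `(m, γ)` with `∂ m = γ v₀ - v₀`.** -/
theorem relP_mag (hE : PW.HasPT F) (hQ : EqE Γ Q)
    (hfin : ∀ v : V, (MulAction.stabilizer Γ v : Set Γ).Finite) (M : Mag (Γ := Γ) Q v₀ G) :
    RelP d α G := by
  have hfinE : ∀ e : E, (MulAction.stabilizer Γ e : Set Γ).Finite := by
    intro e
    apply (hfin (Q.s e)).subset
    intro g hg
    rw [SetLike.mem_coe, MulAction.mem_stabilizer_iff] at *
    rw [← hQ.s_smul, hg]
  have hS : Sep M.mu (SemidirectProduct.inr : Γ →* WE Γ E) := by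
    intro i x hx y hxy
    exact M.theoremH hQ hfin i x hx y hxy
  intro K _ hK
  rw [eq_bot_iff]
  intro x hx
  have h1 : hbMap d (M.mu.prodMap (MonoidHom.id K)) x ∈ LinearMap.ker (tb d α (WE Γ E × K)) :=
    tb_map d α _ hx
  obtain ⟨y, -, hy⟩ := rel_WEE d α hE hfinE K hK h1
  rw [Submodule.mem_bot]
  apply eq_zero_of_cut d α (ker_snd d α hK) hx
  intro b
  apply ku hS (d b) (x b) (y b)
  rw [← hbMap_apply, ← hbMap_apply, hy]

end Main

section Fin

variable {π V E : Type} [Group π] [MulAction π V] [MulAction π E] {Q : Edges V E} {v₀ : V}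
  (hQ : EqE π Q) (hT : ∀ v, ∃! p, Q.del p = single v 1 - single v₀ 1)
  (R : Subgroup π) [hR : R.Normal]

include hQ hT in
theorem relP_quo (hE : PW.HasPT F)
    (hfin : ∀ v : V, (MulAction.stabilizer π v : Set π).Finite) :
    RelP d α (π ⧸ ⁅R, R⁆) := by
  have hfin' : ∀ o : Orb R V, (MulAction.stabilizer (π ⧸ R) o : Set (π ⧸ R)).Finite := by
    intro o
    obtain ⟨v, rfl⟩ := orb_surj o
    exact stab_orb_finite v (hfin v)
  have h1 : RelP d α (IM hQ hT R) := relP_mag d α hE (quoQ_eq hQ R) hfin' (magT hQ hT R)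
  apply relP_detect d α (ι := Unit) (H := fun _ => IM hQ hT R) (fun _ => pM hQ hT R)
  · intro j x hx
    exact hq_inj_of_loc (pM hQ hT R) (pM_surj hQ hT R) (pM_loc hQ hT R hfin) j x (hx ())
  · intro _
    exact h1

end Fin

section Tree

variable {π V : Type} [Group π] [MulAction π V] {Tr : SimpleGraph V}
  (hadj : ∀ (g : π) (u v : V), Tr.Adj u v → Tr.Adj (g • u) (g • v))

include hadj in
/-- **The groups `π / [R, R]`, `π` acting on a tree.** -/
theorem relP_tree (hE : PW.HasPT F) (ht : Tr.IsTree)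
    (hfin : ∀ v : V, (MulAction.stabilizer π v : Set π).Finite) (R : Subgroup π) [R.Normal] :
    RelP d α (π ⧸ ⁅R, R⁆) := by
  obtain ⟨v₀⟩ := ht.connected.nonempty
  exact relP_quo (v₀ := SV.ver v₀) d α (subQ_eq hadj) (tree_sub hadj ht v₀) R hE
    (stab_sub hadj hfin)

end Tree

end Pool.Agent.V11189.KU
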