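import Pool.Agent.V11189.KU.Main
import Pool.Agent.V11187.MG.Fre
import Pool.Agent.Y483.PW.Int

/-!
Injectivity relative to a second factor, and its closure properties.
-/

namespace Pool.Agent.V11189.KU

open Finsupp Pool.Agent.Y483 Pool.Agent.Y110.KW Pool.Agent.Y75.MQ CategoryTheory DirectSum Pointwise
open Pool.Agent.V11187.MG

section Fam

variable {G K : Type} [Group G] [Group K] {ι : Type} {H : ι → Type} [∀ i, Group (H i)]

theorem chain_fam (p : ∀ i, G →* H i)
    (hdet : ∀ (j : ℕ) (x : HQ j G), (∀ i, hqMap (p i) j x = 0) → x = 0) (n : ℕ)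
    (z : T n (G × K) ℚ) (hz : Cyc (trivR (G × K) ℚ) n z)
    (h : ∀ i, mp n ((p i).prodMap (MonoidHom.id K)) LinearMap.id z ∈
        LinearMap.range (dd (trivR (H i × K) ℚ) n)) :
    z - mp n (cut G K) LinearMap.id z ∈ LinearMap.range (dd (trivR (G × K) ℚ) n) := by
  -- the slant products are boundaries
  have hS : ∀ θ : LC K →ₗ[ℚ] ℚ, (∀ m, θ (dD m) = 0) → ∀ j,
      mp (j + 1) id θ (aw n (j + 1) z) ∈ LinearMap.range (dd (trivR G ℚ) (j + 1)) := by
    intro θ hθ j
    by_cases hj : j + 1 ≤ n
    · obtain ⟨m, rfl⟩ : ∃ m, n = m + 1 := ⟨n - 1, by omega⟩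
      rw [cyc_succ] at hz
      have hc : Cyc (trivR G ℚ) (j + 1) (mp (j + 1) id θ (aw (m + 1) (j + 1) z)) := by
        rw [cyc_succ, ← slant_dd θ hθ m j (by omega) z, hz, map_zero, map_zero]
      obtain ⟨y, hy⟩ := exists_class (A := Rep.trivial ℚ G ℚ) (j + 1) _ hc
      apply hy.eq_zero_iff.mp
      apply hdet
      intro i
      rw [(hy.hq (p i)).eq_zero_iff]
      obtain ⟨v, hv⟩ := h i
      refine ⟨mp (j + 2) id θ (aw (m + 2) (j + 2) v), ?_⟩
      have e1 := slant_dd θ hθ (m + 1) (j + 1) hj v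
      rw [hv, aw_map, mp_mp] at e1
      rw [mp_mp]
      exact e1.symm
    · rw [aw_big n (j + 1) (by omega), map_zero]
      exact Submodule.zero_mem _
  obtain ⟨ι, s, f, e, h1, h2, h3⟩ := exists_split (dD : LC K →ₗ[ℚ] LC K) dD_dD
  have d1 := detect_aux n s f e h1 h2 h3 z hz hS
  have hz2 : Cyc (trivR (G × K) ℚ) n (mp n (cut G K) LinearMap.id z) :=
    cyc_mp (ρ := trivR (G × K) ℚ) (τ := trivR (G × K) ℚ) (cut G K) LinearMap.id
      (fun _ _ => rfl) n z hz
  have d2 := detect_aux n s f e h1 h2 h3 (mp n (cut G K) LinearMap.id z) hz2 (by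
    intro θ hθ j
    rw [cut, aw_map, mp_mp]
    have e1 : mp (j + 1) (id ∘ (1 : G →* G)) (θ ∘ₗ LinearMap.id) (aw n (j + 1) z) =
        mp (j + 1) (1 : G →* G) LinearMap.id (mp (j + 1) id θ (aw n (j + 1) z)) := by
      rw [mp_mp]
      rfl
    rw [e1]
    exact mp_const_range (j + 1) (1 : G →* G) _ (hS θ hθ j))
  rw [cut, aw_map, mp_zero_eq] at d2
  have d3 := Submodule.sub_mem _ d1 d2
  rw [sub_sub_sub_cancel_right] at d3
  exact d3

/-- Classes of `G × K` which are killed by all the maps to `H i × K` come from `K`, if the maps to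
the groups `H i` detect the homology of `G`. -/
theorem ku_fam (p : ∀ i, G →* H i)
    (hdet : ∀ (j : ℕ) (x : HQ j G), (∀ i, hqMap (p i) j x = 0) → x = 0) (n : ℕ)
    (x : HQ n (G × K)) (h : ∀ i, hqMap ((p i).prodMap (MonoidHom.id K)) n x = 0) :
    x = hqMap (cut G K) n x := by
  obtain ⟨z, hz⟩ := exists_rpr (Rep.trivial ℚ (G × K) ℚ) n x
  have h4 := chain_fam p hdet n z hz.cyc (fun i => (hz.hq _).eq_zero_iff.mp (h i))
  have h5 := hz.sub (hz.hq (cut G K))
  exact sub_eq_zero.mp (h5.eq_zero_iff.mpr h4)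

end Fam

variable {B : Type} (d : B → ℕ) {F : GrpCat.{0} ⥤ ModuleCat.{0} ℚ} (α : ∀ b : B, hq (d b) ⟶ F)

/-- Injectivity for the products with every group `K` such that injectivity holds for the groups
`ℤⁿ × K`. -/
def RelP (G : Type) [Group G] : Prop :=
  ∀ (K : Type) [Group K], (∀ n, LinearMap.ker (tb d α (Zn n × K)) = ⊥) →
    LinearMap.ker (tb d α (G × K)) = ⊥

section Basic

variable {G K : Type} [Group G] [Group K]

theorem ker_iso {A C : Type} [Group A] [Group C] (e : A ≃* C)
    (h : LinearMap.ker (tb d α C) = ⊥) : LinearMap.ker (tb d α A) = ⊥ :=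
  ker_retract_b d α e.toMonoidHom e.symm.toMonoidHom (fun k => e.symm_apply_apply k) h

theorem ker_snd (h : ∀ n, LinearMap.ker (tb d α (Zn n × K)) = ⊥) :
    LinearMap.ker (tb d α K) = ⊥ :=
  ker_retract_b d α (MonoidHom.inr (Zn 0) K) (MonoidHom.snd (Zn 0) K) (fun _ => rfl) (h 0)

theorem ker_retract_prod {A C : Type} [Group A] [Group C] (i : A →* C) (r : C →* A)
    (hri : ∀ a, r (i a) = a) (h : LinearMap.ker (tb d α (C × K)) = ⊥) :
    LinearMap.ker (tb d α (A × K)) = ⊥ :=
  ker_retract_b d α (i.prodMap (MonoidHom.id K)) (r.prodMap (MonoidHom.id K))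
    (fun k => Prod.ext (hri k.1) rfl) h

/-- The embedding of `ℤᵐ × ℤⁿ` into `ℤᵐ⁺ⁿ`. -/
theorem ker_Zn_Zn (h : ∀ n, LinearMap.ker (tb d α (Zn n × K)) = ⊥) (m n : ℕ) :
    LinearMap.ker (tb d α (Zn m × (Zn n × K))) = ⊥ := by
  let i : Zn m × (Zn n × K) →* Zn (m + n) × K :=
    { toFun := fun x => (Multiplicative.ofAdd (Fin.append x.1.toAdd x.2.1.toAdd), x.2.2)
      map_one' := by
        apply Prod.ext
        · apply Multiplicative.toAdd.injective
          change Fin.append (0 : Fin m → ℤ) (0 : Fin n → ℤ) = 0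
          funext k
          refine Fin.addCases (fun k => ?_) (fun k => ?_) k
          · rw [Fin.append_left]; rfl
          · rw [Fin.append_right]; rfl
        · rfl
      map_mul' := fun x y => by
        apply Prod.ext
        · apply Multiplicative.toAdd.injective
          change Fin.append (x.1.toAdd + y.1.toAdd) (x.2.1.toAdd + y.2.1.toAdd) =
            Fin.append x.1.toAdd x.2.1.toAdd + Fin.append y.1.toAdd y.2.1.toAdd
          funext k
          refine Fin.addCases (fun k => ?_) (fun k => ?_) k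
          · simp only [Fin.append_left, Pi.add_apply]
          · simp only [Fin.append_right, Pi.add_apply]
        · rfl }
  let r : Zn (m + n) × K →* Zn m × (Zn n × K) :=
    { toFun := fun x => (Multiplicative.ofAdd (fun k => x.1.toAdd (Fin.castAdd n k)),
        (Multiplicative.ofAdd (fun k => x.1.toAdd (Fin.natAdd m k)), x.2))
      map_one' := rfl
      map_mul' := fun _ _ => rfl }
  apply ker_retract_b d α i r _ (h (m + n))
  intro x
  refine Prod.ext ?_ (Prod.ext ?_ rfl)
  · apply Multiplicative.toAdd.injective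
    funext k
    exact Fin.append_left _ _ k
  · apply Multiplicative.toAdd.injective
    funext k
    exact Fin.append_right _ _ k

end Basic

section Closure

variable {G : Type} [Group G]

/-- Direct products. -/
theorem relP_prod {H : Type} [Group H] (hG : RelP d α G) (hH : RelP d α H) :
    RelP d α (G × H) := by
  intro K _ hK
  have h1 : ∀ n, LinearMap.ker (tb d α (Zn n × (H × K))) = ⊥ := by
    intro n
    have h2 := hH (Zn n × K) (fun m => ker_Zn_Zn d α hK m n)
    refine ker_iso d α ?_ h2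
    exact
      { toFun := fun x => (x.2.1, (x.1, x.2.2))
        invFun := fun x => (x.2.1, (x.1, x.2.2))
        left_inv := fun _ => rfl
        right_inv := fun _ => rfl
        map_mul' := fun _ _ => rfl }
  exact ker_iso d α MulEquiv.prodAssoc (hG (H × K) h1)

/-- The trivial part of the kernel vanishes. -/
theorem eq_zero_of_cut {K : Type} [Group K] (hK : LinearMap.ker (tb d α K) = ⊥)
    {x : HB d (G × K)} (hx : x ∈ LinearMap.ker (tb d α (G × K)))
    (h : ∀ b, x b = hqMap (cut G K) (d b) (x b)) : x = 0 := by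
  have h1 : hbMap d (MonoidHom.snd G K) x ∈ LinearMap.ker (tb d α K) := tb_map d α _ hx
  rw [hK, Submodule.mem_bot] at h1
  have h2 : hbMap d (cut G K) x = 0 := by
    have e : cut G K = (MonoidHom.inr G K).comp (MonoidHom.snd G K) := rfl
    rw [e, hbMap_comp, h1, map_zero]
  apply DFunLike.ext
  intro b
  rw [h b, ← hbMap_apply, h2]

/-- Joint detection. -/
theorem relP_detect {ι : Type} {H : ι → Type} [∀ i, Group (H i)] (p : ∀ i, G →* H i)
    (hdet : ∀ (j : ℕ) (x : HQ j G), (∀ i, hqMap (p i) j x = 0) → x = 0)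
    (hH : ∀ i, RelP d α (H i)) : RelP d α G := by
  intro K _ hK
  rw [eq_bot_iff]
  intro x hx
  rw [Submodule.mem_bot]
  apply eq_zero_of_cut d α (ker_snd d α hK) hx
  intro b
  apply ku_fam p hdet
  intro i
  have h1 : hbMap d ((p i).prodMap (MonoidHom.id K)) x ∈ LinearMap.ker (tb d α (H i × K)) :=
    tb_map d α _ hx
  rw [hH i K hK, Submodule.mem_bot] at h1
  rw [← hbMap_apply, h1]
  rfl

/-- Retracts. -/
theorem relP_retract {H : Type} [Group H] (i : G →* H) (r : H →* G) (hri : ∀ a, r (i a) = a)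
    (hH : RelP d α H) : RelP d α G := by
  intro K _ hK
  exact ker_retract_prod d α i r hri (hH K hK)

/-- Overgroups of finite index. -/
theorem relP_index (hE : PW.HasPT F) (H : Subgroup G) [H.FiniteIndex] (hH : RelP d α H) :
    RelP d α G := by
  intro K _ hK
  have hZ0 : LinearMap.ker (tb d α (Zn 0)) = ⊥ :=
    ker_retract_b d α (MonoidHom.inl (Zn 0) K) (MonoidHom.fst (Zn 0) K) (fun _ => rfl) (hK 0)
  have hf : (H.comap (MonoidHom.fst G K)).FiniteIndex := by
    rw [Subgroup.finiteIndex_iff,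
      H.index_comap_of_surjective (f := MonoidHom.fst G K) Prod.fst_surjective]
    exact Subgroup.FiniteIndex.index_ne_zero
  apply ker_index d α hE hZ0 (H := H.comap (MonoidHom.fst G K))
  refine ker_iso d α ?_ (hH K hK)
  exact
    { toFun := fun x => (⟨x.1.1, x.2⟩, x.1.2)
      invFun := fun x => ⟨(x.1.1, x.2), x.1.2⟩
      left_inv := fun _ => rfl
      right_inv := fun _ => rfl
      map_mul' := fun _ _ => rfl }

end Closure

section Semi

variable {Γ N V : Type} [Group Γ] [Group N] [MulAction Γ V]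

/-- The action of the first factor. -/
@[instance_reducible]
def fstAct (Γ K V : Type) [Group Γ] [Group K] [MulAction Γ V] : MulAction (Γ × K) V :=
  MulAction.compHom V (MonoidHom.fst Γ K)

/-- The system of supports of the product. -/
noncomputable def sysK (s : PW.Sys Γ N V) (K : Type) [Group K] :
    @PW.Sys (Γ × K) N V _ _ (fstAct Γ K V) :=
  letI := fstAct Γ K V
  { φ := s.φ.comp (MonoidHom.fst Γ K)
    e := s.e
    inter := s.inter
    equivariant := fun g S n => s.equivariant g.1 S n
    finite := s.finite }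

/-- **Semidirect products with a system of supports.** -/
theorem relP_semi (hE : PW.HasPT F) (s : PW.Sys Γ N V)
    (h : ∀ σ : s.Cl, RelP d α (s.supG σ.1)) : RelP d α (N ⋊[s.φ] Γ) := by
  intro K _ hK
  let _ := fstAct Γ K V
  have h1 := PW.sys_gen hE α (sysK s K)
  have h0 : LinearMap.ker (tb d α (N ⋊[(sysK s K).φ] (Γ × K))) = ⨆ σ : (sysK s K).Cl,
      (LinearMap.ker (tb d α ((sysK s K).supG σ.1))).map
        (hbMap d ((sysK s K).supG σ.1).subtype) := h1
  have h2 : LinearMap.ker (tb d α (N ⋊[(sysK s K).φ] (Γ × K))) = ⊥ := by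
    rw [h0, iSup_eq_bot]
    intro σ
    have h3 : LinearMap.ker (tb d α ((sysK s K).supG σ.1)) = ⊥ := by
      refine ker_iso d α ?_ (h ⟨σ.1, σ.2⟩ K hK)
      exact
        { toFun := fun x => (⟨⟨x.1.left, x.1.right.1⟩, x.2⟩, x.1.right.2)
          invFun := fun x => ⟨⟨x.1.1.left, (x.1.1.right, x.2)⟩, x.1.2⟩
          left_inv := fun _ => rfl
          right_inv := fun _ => rfl
          map_mul' := fun _ _ => rfl }
    rw [h3, Submodule.map_bot]
  refine ker_iso d α ?_ h2
  exact
    { toFun := fun x => ⟨x.1.left, (x.1.right, x.2)⟩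
      invFun := fun x => (⟨x.left, x.right.1⟩, x.right.2)
      left_inv := fun _ => rfl
      right_inv := fun _ => rfl
      map_mul' := fun _ _ => rfl }

end Semi

end Pool.Agent.V11189.KU
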