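import Pool.Agent.V11189.KU.Gr

/-!
Restricted permutational wreath products, relative to a second factor.
-/

namespace Pool.Agent.V11189.KU

open Pool.Agent.Y483 Pool.Agent.Y110.KW Pool.Agent.Y75.MQ CategoryTheory Pointwise
open Pool.Agent.V11187.MG

section Def

variable (Γ V A : Type) [Group Γ] [MulAction Γ V] [Group A]

/-- The group of the functions `V → A` with finite support. -/
def finSup : Subgroup (V → A) where
  carrier := {f | {v | f v ≠ 1}.Finite}
  mul_mem' {f g} hf hg := by
    apply (hf.union hg).subset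
    intro v hv
    by_contra h
    rw [Set.mem_union, not_or] at h
    have h1 : f v = 1 := not_not.mp h.1
    have h2 : g v = 1 := not_not.mp h.2
    apply hv
    rw [Pi.mul_apply, h1, h2, one_mul]
  one_mem' := by
    apply Set.finite_empty.subset
    intro v hv
    exact hv rfl
  inv_mem' {f} hf := by
    apply hf.subset
    intro v hv h
    apply hv
    rw [Pi.inv_apply, h, inv_one]

variable {Γ V A}

/-- The function `v ↦ f (γ⁻¹ v)`. -/
def shiftF (γ : Γ) : finSup V A →* finSup V A where
  toFun f := ⟨fun v => f.1 (γ⁻¹ • v), by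
    apply (f.2.image (fun v => γ • v)).subset
    intro v hv
    exact ⟨γ⁻¹ • v, hv, smul_inv_smul γ v⟩⟩
  map_one' := rfl
  map_mul' _ _ := rfl

variable (Γ V A)

/-- The action of `Γ` on the functions with finite support. -/
def shiftA : Γ →* MulAut (finSup V A) :=
  MonoidHom.mk' (fun γ => MonoidHom.toMulEquiv (shiftF γ) (shiftF γ⁻¹)
    (MonoidHom.ext fun f => Subtype.ext (funext fun v => by
      change f.1 (γ⁻¹ • γ⁻¹⁻¹ • v) = f.1 v
      rw [smul_inv_smul]))
    (MonoidHom.ext fun f => Subtype.ext (funext fun v => by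
      change f.1 (γ⁻¹⁻¹ • γ⁻¹ • v) = f.1 v
      rw [inv_smul_smul])))
    (fun a b => MulEquiv.ext fun f => Subtype.ext (funext fun v => by
      change f.1 ((a * b)⁻¹ • v) = f.1 (b⁻¹ • a⁻¹ • v)
      rw [mul_inv_rev, mul_smul]))

/-- The restricted wreath product of `A` and `Γ` along the set `V`. -/
abbrev Wr : Type := finSup V A ⋊[shiftA Γ V A] Γ

variable {V A}

open Classical in
/-- The restriction to `S`. -/
noncomputable def cutF (S : Set V) : finSup V A →* finSup V A where
  toFun f := ⟨fun v => if v ∈ S then f.1 v else 1, by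
    apply f.2.subset
    intro v hv h
    apply hv
    change (if v ∈ S then f.1 v else 1) = 1
    rw [h, ite_self]⟩
  map_one' := by
    apply Subtype.ext
    funext v
    change (if v ∈ S then (1 : A) else 1) = 1
    rw [ite_self]
  map_mul' f g := by
    apply Subtype.ext
    funext v
    change (if v ∈ S then f.1 v * g.1 v else 1) =
      (if v ∈ S then f.1 v else 1) * (if v ∈ S then g.1 v else 1)
    split_ifs
    · rfl
    · rw [one_mul]

theorem cutF_mem {S : Set V} (f : finSup V A) {v : V} (h : v ∈ S) : (cutF S f).1 v = f.1 v :=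
  if_pos h

theorem cutF_not {S : Set V} (f : finSup V A) {v : V} (h : v ∉ S) : (cutF S f).1 v = 1 :=
  if_neg h

variable (V A)

/-- The system of supports. -/
noncomputable def wrSys : PW.Sys Γ (finSup V A) V where
  φ := shiftA Γ V A
  e S := cutF S
  inter S T f := by
    apply Subtype.ext
    funext v
    by_cases h1 : v ∈ S
    · rw [cutF_mem _ h1]
      by_cases h2 : v ∈ T
      · rw [cutF_mem _ h2, cutF_mem _ (S := S ∩ T) ⟨h1, h2⟩]
      · rw [cutF_not _ h2, cutF_not _ (S := S ∩ T) (fun h => h2 h.2)]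
    · rw [cutF_not _ h1, cutF_not _ (S := S ∩ T) (fun h => h1 h.1)]
  equivariant γ S f := by
    apply Subtype.ext
    funext v
    change (cutF S f).1 (γ⁻¹ • v) = (cutF (γ • S) (shiftF γ f)).1 v
    have h : γ⁻¹ • v ∈ S ↔ v ∈ γ • S := Set.mem_smul_set_iff_inv_smul_mem.symm
    by_cases h1 : γ⁻¹ • v ∈ S
    · rw [cutF_mem _ h1, cutF_mem _ (h.mp h1)]
      rfl
    · rw [cutF_not _ h1, cutF_not _ (fun h2 => h1 (h.mpr h2))]
  finite f := by
    have hf : {v | f.1 v ≠ 1}.Finite := f.2
    refine ⟨hf.toFinset, ?_⟩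
    apply Subtype.ext
    funext v
    by_cases h : v ∈ (hf.toFinset : Set V)
    · exact cutF_mem _ h
    · rw [cutF_not _ h]
      by_contra h2
      apply h
      rw [hf.coe_toFinset]
      exact fun h3 => h2 h3.symm

end Def

variable {B : Type} (d : B → ℕ) {F : GrpCat.{0} ⥤ ModuleCat.{0} ℚ} (α : ∀ b : B, hq (d b) ⟶ F)

/-- **Restricted wreath products.** -/
theorem relP_wr (hE : PW.HasPT F) {Γ V A : Type} [Group Γ] [MulAction Γ V] [Group A]
    (hA : RelP d α A) (hΓ : ∀ σ : Finset V, RelP d α (fixingSubgroup Γ (σ : Set V))) :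
    RelP d α (Wr Γ V A) := by
  classical
  apply relP_semi d α hE (wrSys Γ V A)
  intro σ
  have hfix : ∀ γ : Γ, (∀ v ∈ σ.1, γ • v = v) → ∀ v ∈ σ.1, γ⁻¹ • v = v := by
    intro γ hγ v hv
    rw [inv_smul_eq_iff]
    exact (hγ v hv).symm
  have hmem : ∀ γ : Γ, (∀ v ∈ σ.1, γ • v = v) → ∀ v, v ∉ σ.1 → γ⁻¹ • v ∉ σ.1 := by
    intro γ hγ v hv h
    apply hv
    have h1 := hγ _ h
    rw [smul_inv_smul] at h1
    rw [h1]
    exact h
  refine relP_retract d α (H := (σ.1 → A) × fixingSubgroup Γ (σ.1 : Set V))
    { toFun := fun w => (fun v => w.1.left.1 v,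
        ⟨w.1.right, (mem_fixingSubgroup_iff Γ).mpr w.2.2⟩)
      map_one' := rfl
      map_mul' := fun w w' => by
        apply Prod.ext
        · funext v
          change w.1.left.1 v * w'.1.left.1 (w.1.right⁻¹ • (v : V)) = w.1.left.1 v * w'.1.left.1 v
          rw [hfix w.1.right w.2.2 v v.2]
        · rfl }
    { toFun := fun x => ⟨⟨⟨fun v => if h : v ∈ σ.1 then x.1 ⟨v, h⟩ else 1, by
          apply σ.1.finite_toSet.subset
          intro v hv
          by_contra h
          exact hv (dif_neg h)⟩, x.2.1⟩, by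
            apply Subtype.ext
            funext v
            by_cases h : v ∈ σ.1
            · exact cutF_mem _ (Finset.mem_coe.mpr h)
            · have h3 : (if h : v ∈ σ.1 then x.1 ⟨v, h⟩ else (1 : A)) = 1 := dif_neg h
              exact (cutF_not _ (fun h2 => h (Finset.mem_coe.mp h2))).trans h3.symm,
          (mem_fixingSubgroup_iff Γ).mp x.2.2⟩
      map_one' := by
        apply Subtype.ext
        apply SemidirectProduct.ext
        · apply Subtype.ext
          funext v
          change (if h : v ∈ σ.1 then (1 : A) else 1) = 1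
          split_ifs <;> rfl
        · rfl
      map_mul' := fun x y => by
        apply Subtype.ext
        apply SemidirectProduct.ext
        · apply Subtype.ext
          funext v
          have hx : ∀ v ∈ σ.1, x.2.1 • v = v := (mem_fixingSubgroup_iff Γ).mp x.2.2
          change (if h : v ∈ σ.1 then x.1 ⟨v, h⟩ * y.1 ⟨v, h⟩ else 1) =
            (if h : v ∈ σ.1 then x.1 ⟨v, h⟩ else 1) *
              (if h : x.2.1⁻¹ • v ∈ σ.1 then y.1 ⟨x.2.1⁻¹ • v, h⟩ else 1)
          by_cases h : v ∈ σ.1
          · have h1 : x.2.1⁻¹ • v = v := hfix _ hx v h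
            have h2 : x.2.1⁻¹ • v ∈ σ.1 := by rw [h1]; exact h
            rw [dif_pos h, dif_pos h, dif_pos h2]
            congr 1
            exact congrArg y.1 (Subtype.ext h1.symm)
          · rw [dif_neg h, dif_neg h, dif_neg (hmem _ hx v h), one_mul]
        · rfl } ?_
    (relP_prod d α (relP_pi d α σ.1 (fun _ : σ.1 => A) (fun _ => hA)) (hΓ σ.1))
  intro w
  apply Subtype.ext
  apply SemidirectProduct.ext
  · apply Subtype.ext
    funext v
    have h1 : (cutF (σ.1 : Set V) w.1.left).1 v = w.1.left.1 v :=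
      congrFun (congrArg Subtype.val w.2.1) v
    change (if h : v ∈ σ.1 then w.1.left.1 v else 1) = w.1.left.1 v
    by_cases h : v ∈ σ.1
    · rw [dif_pos h]
    · rw [dif_neg h, ← h1, cutF_not _ (fun h2 => h (Finset.mem_coe.mp h2))]
  · rfl

end Pool.Agent.V11189.KU
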